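import Pool.Agent.Y230.TH.Exp
import Pool.Agent.Y21.TH.JobA

set_option autoImplicit false
set_option linter.unusedSectionVars false
set_option linter.unusedVariables false

/-! # The functional equations of a suspension `z ^ k + f(x)` -/

namespace Pool.Agent.K1H20.SU

open MvPolynomial
open Pool.Agent.W574.SM Pool.Agent.W574.HS Pool.Agent.Y230.TH
open Pool.Agent.H628R4.TP (IsBFunction)

variable {ρ : Type}

/-- the suspension `z ^ k + f(x)` -/
noncomputable def sus (k : ℕ) (f : MvPolynomial ρ ℂ) : MvPolynomial (Unit ⊕ ρ) ℂ :=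
  X (Sum.inl ()) ^ k + rename Sum.inr f

theorem hat_zpow (m : ℕ) : ∀ (q : MvPolynomial ρ ℂ) (α : Unit →₀ ℕ),
    hat (X (Sum.inl ()) ^ m * rename Sum.inr q : MvPolynomial (Unit ⊕ ρ) ℂ) α =
      if α () = m then (m.factorial : ℂ) • q else 0 := by
  classical
  induction m with
  | zero =>
    intro q α
    have h1 : hat (rename Sum.inr q * 1 : MvPolynomial (Unit ⊕ ρ) ℂ) α = _ := hat_r q 1 α
    rw [mul_one, hat_one] at h1
    rw [pow_zero, one_mul, h1]
    by_cases h : α = 0
    · rw [if_pos h, if_pos (by rw [h]; rfl), mul_one]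
      simp
    · rw [if_neg h, if_neg (fun h2 => h (by ext u; exact h2)), mul_zero]
  | succ m ih =>
    intro q α
    rw [pow_succ', mul_assoc, hat_Xl, ih]
    have h1 : (α - Finsupp.single () 1 : Unit →₀ ℕ) () = α () - 1 := by
      rw [Finsupp.tsub_apply, Finsupp.single_eq_same]
    rw [h1]
    by_cases h : α () = m + 1
    · rw [if_pos (by omega), if_pos h, smul_smul, h, Nat.factorial_succ]
      push_cast
      ring_nf
    · rw [if_neg h]
      by_cases h0 : α () = 0
      · rw [h0]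
        simp
      · rw [if_neg (by omega), smul_zero]

theorem hat_sus_pow (k : ℕ) (hk : 0 < k) (f : MvPolynomial ρ ℂ) (N i : ℕ) (α : Unit →₀ ℕ)
    (hα : α () = k * i) : hat (sus k f ^ N) α =
      ((N.choose i : ℂ) * ((k * i).factorial : ℂ)) • f ^ (N - i) := by
  classical
  unfold sus
  rw [add_pow, hat_sum]
  have h1 : ∀ m ∈ Finset.range (N + 1), hat ((X (Sum.inl ()) ^ k) ^ m *
      rename Sum.inr f ^ (N - m) * ((N.choose m : ℕ) : MvPolynomial (Unit ⊕ ρ) ℂ)) α =
      if i = m then ((N.choose i : ℂ) * ((k * i).factorial : ℂ)) • f ^ (N - i) else 0 := by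
    intro m _
    have e : (X (Sum.inl ()) ^ k) ^ m * rename Sum.inr f ^ (N - m) *
        ((N.choose m : ℕ) : MvPolynomial (Unit ⊕ ρ) ℂ) =
        C (N.choose m : ℂ) * (X (Sum.inl ()) ^ (k * m) * rename Sum.inr (f ^ (N - m))) := by
      rw [map_pow, map_natCast, pow_mul]
      ring
    rw [e, hat_C_mul, hat_zpow, hα]
    by_cases h : i = m
    · rw [if_pos (by rw [h]), if_pos h, smul_smul, h]
    · rw [if_neg h, if_neg, smul_zero]
      intro h2
      exact h (Nat.eq_of_mul_eq_mul_left hk h2)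
  rw [Finset.sum_congr rfl h1, Finset.sum_ite_eq]
  split_ifs with h
  · rfl
  · rw [Nat.choose_eq_zero_of_lt (by rw [Finset.mem_range] at h; omega)]
    simp

theorem hat_sus_pow_ne (k : ℕ) (f : MvPolynomial ρ ℂ) (N : ℕ) (α : Unit →₀ ℕ)
    (hα : ¬ k ∣ α ()) : hat (sus k f ^ N) α = 0 := by
  classical
  unfold sus
  rw [add_pow, hat_sum]
  refine Finset.sum_eq_zero fun m _ => ?_
  have e : (X (Sum.inl ()) ^ k) ^ m * rename Sum.inr f ^ (N - m) *
      ((N.choose m : ℕ) : MvPolynomial (Unit ⊕ ρ) ℂ) =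
      C (N.choose m : ℂ) * (X (Sum.inl ()) ^ (k * m) * rename Sum.inr (f ^ (N - m))) := by
    rw [map_pow, map_natCast, pow_mul]
    ring
  rw [e, hat_C_mul, hat_zpow, if_neg, smul_zero]
  rintro h
  exact hα ⟨m, h⟩

/-- `(k (i + e))! i! / ((k i)! (i + e)!)` as a polynomial in `i` -/
noncomputable def upP (k e : ℕ) : Polynomial ℂ :=
  ∏ l ∈ Finset.range e, (Polynomial.C (k : ℂ) * ∏ r ∈ Finset.range (k - 1),
    (Polynomial.C (k : ℂ) * Polynomial.X + Polynomial.C ((k * l + r + 1 : ℕ) : ℂ)))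

theorem upP_eval (k : ℕ) (hk : 0 < k) (i e : ℕ) :
    ((k * (i + e)).factorial : ℂ) * (i.factorial : ℂ) =
      ((k * i).factorial : ℂ) * ((i + e).factorial : ℂ) * (upP k e).eval (i : ℂ) := by
  induction e with
  | zero => simp [upP]
  | succ e ih =>
    obtain ⟨K, rfl⟩ : ∃ K, k = K + 1 := ⟨k - 1, by omega⟩
    have h1 : (((K + 1) * (i + (e + 1))).factorial : ℂ) = (((K + 1) * (i + e)).factorial : ℂ) *
        (((K + 1 : ℕ) : ℂ) * ((i + e + 1 : ℕ) : ℂ) * ∏ r ∈ Finset.range K,
          (((K + 1 : ℕ) : ℂ) * (i : ℂ) + (((K + 1) * e + r + 1 : ℕ) : ℂ))) := by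
      have h2 : (K + 1) * (i + (e + 1)) = (K + 1) * (i + e) + (K + 1) := by ring
      rw [h2, ← Nat.factorial_mul_ascFactorial, Nat.ascFactorial_eq_prod_range,
        Finset.prod_range_succ]
      push_cast
      have h3 : ∀ r ∈ Finset.range K, (((K : ℂ) + 1) * ((i : ℂ) + e) + 1 + (r : ℂ)) =
          ((K : ℂ) + 1) * (i : ℂ) + (((K : ℂ) + 1) * e + r + 1) := fun r _ => by ring
      rw [Finset.prod_congr rfl h3]
      ring
    have h4 : (upP (K + 1) (e + 1)).eval (i : ℂ) = (upP (K + 1) e).eval (i : ℂ) *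
        (((K + 1 : ℕ) : ℂ) * ∏ r ∈ Finset.range K,
          (((K + 1 : ℕ) : ℂ) * (i : ℂ) + (((K + 1) * e + r + 1 : ℕ) : ℂ))) := by
      unfold upP
      rw [Finset.prod_range_succ, Polynomial.eval_mul]
      congr 1
      rw [Polynomial.eval_mul, Polynomial.eval_C, Polynomial.eval_prod, Nat.add_sub_cancel]
      congr 1
      refine Finset.prod_congr rfl fun r _ => ?_
      rw [Polynomial.eval_add, Polynomial.eval_mul, Polynomial.eval_C, Polynomial.eval_C,
        Polynomial.eval_X]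
    have h5 : ((i + (e + 1)).factorial : ℂ) = ((i + e + 1 : ℕ) : ℂ) * ((i + e).factorial : ℂ) := by
      rw [← add_assoc, Nat.factorial_succ]
      push_cast
      ring
    rw [h1, h4, h5]
    linear_combination (((K + 1 : ℕ) : ℂ) * ((i + e + 1 : ℕ) : ℂ) * ∏ r ∈ Finset.range K,
          (((K + 1 : ℕ) : ℂ) * (i : ℂ) + (((K + 1) * e + r + 1 : ℕ) : ℂ))) * ih

theorem upP_root (k : ℕ) (hk : 2 ≤ k) (e : ℕ) : (upP k (e + 1)).eval (-(1 / (k : ℂ))) = 0 := by
  have hk0 : (k : ℂ) ≠ 0 := by exact_mod_cast (by omega : k ≠ 0)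
  unfold upP
  rw [Polynomial.eval_prod, Finset.prod_eq_zero (Finset.mem_range.2 (Nat.succ_pos e))]
  rw [Polynomial.eval_mul, Polynomial.eval_prod,
    Finset.prod_eq_zero (Finset.mem_range.2 (by omega : 0 < k - 1)), mul_zero]
  rw [Polynomial.eval_add, Polynomial.eval_mul, Polynomial.eval_C, Polynomial.eval_C,
    Polynomial.eval_X]
  push_cast
  field_simp
  ring

/-- the factor of a term with the shift `k e` -/
noncomputable def facP (k : ℕ) (e : ℤ) : Polynomial ℂ :=
  if 0 ≤ e then upP k e.toNat else descPochhammer ℂ (-e).toNat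

theorem fac_term (k : ℕ) (hk : 0 < k) (e : ℤ) (n i : ℕ) (hi : 0 ≤ (i : ℤ) + e) :
    ((k * i).descFactorial (-((k : ℤ) * e)).toNat : ℂ) *
      ((((n + i + 1).choose ((i : ℤ) + e).toNat : ℕ) : ℂ) *
        ((k * ((i : ℤ) + e).toNat).factorial : ℂ)) =
      ((n + i + 1 : ℕ) : ℂ) * ((n + i).choose i : ℂ) * ((k * i).factorial : ℂ) *
        ((facP k e).eval (i : ℂ) * kd n e) := by
  have hfi : (i.factorial : ℂ) ≠ 0 := by exact_mod_cast Nat.factorial_ne_zero _
  have hfn : (n.factorial : ℂ) ≠ 0 := by exact_mod_cast Nat.factorial_ne_zero _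
  -- the common part
  have key : ∀ j : ℕ, (j : ℤ) = (i : ℤ) + e →
      (((n + i + 1).choose j : ℕ) : ℂ) * (j.factorial : ℂ) = ((n + i + 1 : ℕ) : ℂ) *
        ((n + i).choose i : ℂ) * (i.factorial : ℂ) * kd n e := by
    intro j hj
    have h1 : ((n + i + 1 : ℕ) : ℂ) * ((n + i).choose i : ℂ) * (i.factorial : ℂ) *
        (n.factorial : ℂ) = ((n + i + 1).factorial : ℂ) := by
      have h2 := Nat.choose_mul_factorial_mul_factorial (show i ≤ n + i by omega)
      rw [Nat.add_sub_cancel] at h2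
      rw [Nat.factorial_succ, ← h2]
      push_cast
      ring
    unfold kd
    by_cases h : (n : ℤ) + 1 < e
    · rw [if_pos h, Nat.choose_eq_zero_of_lt (by omega)]
      simp
    · rw [if_neg h]
      have h2 : ((n : ℤ) + 1 - e).toNat = n + i + 1 - j := by omega
      rw [h2]
      have h3 : ((n + i + 1 - j).factorial : ℂ) ≠ 0 := by
        exact_mod_cast Nat.factorial_ne_zero _
      have h4 := Nat.choose_mul_factorial_mul_factorial (show j ≤ n + i + 1 by omega)
      have h5 : (((n + i + 1).choose j : ℕ) : ℂ) * (j.factorial : ℂ) *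
          ((n + i + 1 - j).factorial : ℂ) = ((n + i + 1).factorial : ℂ) := by exact_mod_cast h4
      rw [mul_div_assoc', eq_div_iff h3, h5, h1]
  obtain ⟨j, hj⟩ : ∃ j : ℕ, (j : ℤ) = (i : ℤ) + e := ⟨((i : ℤ) + e).toNat, Int.toNat_of_nonneg hi⟩
  have hfj : (j.factorial : ℂ) ≠ 0 := by exact_mod_cast Nat.factorial_ne_zero _
  have hjn : ((i : ℤ) + e).toNat = j := by omega
  rw [hjn]
  have hk' := key j hj
  by_cases he : 0 ≤ e
  · obtain ⟨E, rfl⟩ : ∃ E : ℕ, e = E := ⟨e.toNat, (Int.toNat_of_nonneg he).symm⟩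
    have hjE : j = i + E := by omega
    have h1 : (-((k : ℤ) * (E : ℤ))).toNat = 0 := by
      have : 0 ≤ (k : ℤ) * (E : ℤ) := by positivity
      omega
    have h2 : facP k (E : ℤ) = upP k E := by
      unfold facP
      rw [if_pos he, Int.toNat_natCast]
    rw [h1, Nat.descFactorial_zero, h2, Nat.cast_one, one_mul]
    have h3 := upP_eval k hk i E
    rw [← hjE] at h3
    have h4 : ((k * j).factorial : ℂ) = ((k * i).factorial : ℂ) * (j.factorial : ℂ) *
        (upP k E).eval (i : ℂ) / (i.factorial : ℂ) := by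
      rw [eq_div_iff hfi, h3]
    rw [h4, mul_div_assoc', div_eq_iff hfi]
    linear_combination ((k * i).factorial : ℂ) * (upP k E).eval (i : ℂ) * hk'
  · push Not at he
    obtain ⟨E, hE⟩ : ∃ E : ℕ, (E : ℤ) = -e := ⟨(-e).toNat, Int.toNat_of_nonneg (by omega)⟩
    have hjE : i = j + E := by omega
    have h1 : (-((k : ℤ) * e)).toNat = k * E := by
      have : -((k : ℤ) * e) = ((k * E : ℕ) : ℤ) := by
        push_cast
        rw [hE]
        ring
      rw [this, Int.toNat_natCast]
    have h2 : facP k e = descPochhammer ℂ E := by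
      unfold facP
      rw [if_neg (by omega)]
      congr 1
      omega
    rw [h1, h2, descPochhammer_eval_eq_descFactorial]
    have h3 : ((k * j).factorial : ℂ) * ((k * i).descFactorial (k * E) : ℂ) =
        ((k * i).factorial : ℂ) := by
      have h4 := Nat.factorial_mul_descFactorial (show k * E ≤ k * i by
        exact Nat.mul_le_mul_left _ (by omega))
      have h5 : k * i - k * E = k * j := by
        rw [hjE, Nat.mul_add, Nat.add_sub_cancel]
      rw [h5] at h4
      exact_mod_cast h4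
    have h6 : (j.factorial : ℂ) * (i.descFactorial E : ℂ) = (i.factorial : ℂ) := by
      have h4 := Nat.factorial_mul_descFactorial (show E ≤ i by omega)
      have h5 : i - E = j := by omega
      rw [h5] at h4
      exact_mod_cast h4
    have h7 : (((n + i + 1).choose j : ℕ) : ℂ) = ((n + i + 1 : ℕ) : ℂ) *
        ((n + i).choose i : ℂ) * (i.descFactorial E : ℂ) * kd n e := by
      apply mul_right_cancel₀ hfj
      rw [hk', ← h6]
      ring
    rw [h7, ← h3]
    ring

/-- an identity between polynomial combinations at infinitely many integers -/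
theorem poly_vec {J : Type} (s : Finset J) (P0 : Polynomial ℂ) (v0 : MvPolynomial ρ ℂ)
    (P : J → Polynomial ℂ) (v : J → MvPolynomial ρ ℂ) (I0 : ℕ)
    (h : ∀ i : ℕ, I0 ≤ i → P0.eval (i : ℂ) • v0 = ∑ j ∈ s, (P j).eval (i : ℂ) • v j) (x : ℂ) :
    P0.eval x • v0 = ∑ j ∈ s, (P j).eval x • v j := by
  classical
  refine MvPolynomial.ext _ _ fun α => ?_
  have key : Polynomial.C (coeff α v0) * P0 - (∑ j ∈ s, Polynomial.C (coeff α (v j)) * P j) = 0 := by
    refine Polynomial.eq_zero_of_infinite_isRoot _ ?_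
    refine Set.infinite_of_injective_forall_mem (f := fun i : ℕ => ((I0 + i : ℕ) : ℂ))
      (fun a b hab => by
        have h1 : ((I0 + a : ℕ) : ℂ) = ((I0 + b : ℕ) : ℂ) := hab
        have : I0 + a = I0 + b := by exact_mod_cast h1
        omega) fun i => ?_
    have h1 := congrArg (coeff α) (h (I0 + i) (by omega))
    rw [coeff_sum, coeff_smul, smul_eq_mul] at h1
    change Polynomial.eval _ _ = 0
    rw [Polynomial.eval_sub, Polynomial.eval_mul, Polynomial.eval_C, Polynomial.eval_finsetSum,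
      mul_comm, h1, sub_eq_zero]
    refine Finset.sum_congr rfl fun j _ => ?_
    rw [Polynomial.eval_mul, Polynomial.eval_C, coeff_smul, smul_eq_mul, mul_comm]
  rw [coeff_sum, coeff_smul, smul_eq_mul]
  have h2 := congrArg (Polynomial.eval x) key
  rw [Polynomial.eval_sub, Polynomial.eval_mul, Polynomial.eval_C, Polynomial.eval_finsetSum,
    Polynomial.eval_zero, sub_eq_zero, mul_comm] at h2
  rw [h2]
  refine Finset.sum_congr rfl fun j _ => ?_
  rw [Polynomial.eval_mul, Polynomial.eval_C, coeff_smul, smul_eq_mul, mul_comm]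

theorem W_poly (g : MvPolynomial ρ ℂ) (p : Polynomial ℂ) (e : ℕ) (he : 1 ≤ e) (Q : weyl ρ) :
    (fun n : ℕ => (p.eval (n : ℂ) * kf n e) •
      (Q : Module.End ℂ (MvPolynomial ρ ℂ)) (g ^ (n + e))) ∈ W g := by
  classical
  have h1 : (fun n : ℕ => (p.eval (n : ℂ) * kf n e) •
      (Q : Module.End ℂ (MvPolynomial ρ ℂ)) (g ^ (n + e))) =
      ∑ j ∈ p.support, p.coeff j • (fun n : ℕ => ((n : ℂ) ^ j * kf n e) •
        (Q : Module.End ℂ (MvPolynomial ρ ℂ)) (g ^ (n + e))) := by
    funext n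
    rw [Finset.sum_apply, Polynomial.eval_eq_sum, Polynomial.sum, Finset.sum_mul,
      Finset.sum_smul]
    refine Finset.sum_congr rfl fun j _ => ?_
    rw [Pi.smul_apply, smul_smul]
    congr 1
    ring
  rw [h1]
  refine Submodule.sum_mem _ fun j _ => Submodule.smul_mem _ _ (Submodule.subset_span ?_)
  exact ⟨j, e, Q, he, rfl⟩

theorem sus_ne (k : ℕ) (hk : 0 < k) (f : MvPolynomial ρ ℂ) :
    sus k f ≠ 0 ∧ ¬ sus k f ∣ 1 := by
  set φ : MvPolynomial (Unit ⊕ ρ) ℂ →ₐ[ℂ] Polynomial (MvPolynomial ρ ℂ) :=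
    aeval (Sum.elim (fun _ => Polynomial.X) fun i => Polynomial.C (X i)) with hφ
  have h0 : φ (rename Sum.inr f) = Polynomial.C f := by
    induction f using MvPolynomial.induction_on with
    | C a => rw [rename_C, hφ, aeval_C]; rfl
    | add p q hp hq => rw [map_add, map_add, hp, hq, map_add]
    | mul_X p i hp =>
      rw [map_mul, map_mul, hp, rename_X, hφ, aeval_X, Sum.elim_inr, map_mul]
  have h1 : (φ (sus k f)).natDegree = k := by
    unfold sus
    rw [map_add, map_pow, h0, hφ, aeval_X, Sum.elim_inl]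
    exact Polynomial.natDegree_X_pow_add_C
  constructor
  · intro h
    rw [h, map_zero, Polynomial.natDegree_zero] at h1
    omega
  · intro h
    have h2 : IsUnit (φ (sus k f)) := (isUnit_of_dvd_one h).map _
    rw [Polynomial.natDegree_eq_zero_of_isUnit h2] at h1
    omega

/-- **The functional equations of a suspension.** If `b` satisfies a functional equation for
`z ^ k + f(x)`, `k ≥ 2`, then `b(s) = (s + 1) b'(s)`, and `(s + 1) b'(s - 1 / k)` satisfies one
for `f`. -/
theorem sus_fe [DecidableEq ρ] (k : ℕ) (hk : 2 ≤ k) (f : MvPolynomial ρ ℂ) (hf : f ≠ 0)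
    (b : Polynomial ℂ) (hb : IsBFunction (sus k f) b) :
    ∃ b' : Polynomial ℂ, b = (Polynomial.X + 1) * b' ∧
      IsBFunction f ((Polynomial.X + 1) * b'.comp (Polynomial.X - Polynomial.C (1 / (k : ℂ)))) := by
  classical
  have hk0 : 0 < k := by omega
  have hkC : (k : ℂ) ≠ 0 := by exact_mod_cast hk0.ne'
  obtain ⟨hF0, hF1⟩ := sus_ne k hk0 f
  obtain ⟨P, hP⟩ := hb
  have hm1 : b.eval (-1) = 0 := by
    refine minus_one _ 1 hF0 hF1 b P fun s => ?_
    rw [one_mul]
    exact hP s
  obtain ⟨b', hb'⟩ : (Polynomial.X + 1 : Polynomial ℂ) ∣ b := by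
    have := Polynomial.dvd_iff_isRoot.2 hm1
    rwa [Polynomial.C_neg, sub_neg_eq_add, Polynomial.C_1] at this
  refine ⟨b', hb', Pool.Agent.Y21.TH.tA f hf _ ?_⟩
  choose E hE1 hE2 using fun m : ℕ => rep_weylS (σ := ρ) (ι := Unit) (P m).1 (P m).2 _ rep_id
  choose κ hκ c q R hR using hE1
  -- the terms with a shift divisible by `k`
  set J : Type := Σ m : P.support, κ m with hJ
  set sh' : J → ℤ := fun j => c j.1 j.2 () with hsh
  set good : Finset J := Finset.univ.filter fun j => (k : ℤ) ∣ sh' j with hgood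
  set ee : J → ℤ := fun j => sh' j / (k : ℤ) with hee
  have hsg : ∀ j ∈ good, sh' j = (k : ℤ) * ee j := fun j hj =>
    (Int.mul_ediv_cancel' (Finset.mem_filter.1 hj).2).symm
  set I0 : ℕ := ∑ j : J, (sh' j).natAbs with hI0
  have hI0' : ∀ j : J, (sh' j).natAbs ≤ I0 := fun j =>
    Finset.single_le_sum (f := fun j => (sh' j).natAbs) (fun _ _ => Nat.zero_le _)
      (Finset.mem_univ j)
  -- the polynomial in one variable
  set q1 : J → Polynomial ℂ := fun j =>
    MvPolynomial.aeval (fun _ : Unit => Polynomial.C (k : ℂ) * Polynomial.X) (q j.1 j.2) with hq1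
  have hq1e : ∀ (j : J) (i : ℕ) (α : Unit →₀ ℕ), α () = k * i →
      evN α (q j.1 j.2) = (q1 j).eval (i : ℂ) := by
    intro j i α hα
    have h1 : (q1 j).eval (i : ℂ) = Polynomial.aeval (i : ℂ) (q1 j) := by
      rw [Polynomial.coe_aeval_eq_eval]
    rw [h1, hq1, MvPolynomial.comp_aeval_apply, evN, MvPolynomial.aeval_eq_eval]
    congr 2
    funext u
    rw [hα, map_mul, Polynomial.aeval_X, Polynomial.aeval_C]
    push_cast
    rfl
  have main : ∀ n i : ℕ, I0 ≤ i → (b'.comp (Polynomial.X + Polynomial.C (n : ℂ))).eval (i : ℂ) •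
      f ^ n = ∑ j ∈ good, ((Polynomial.X + Polynomial.C (n : ℂ)) ^ (j.1 : ℕ) * q1 j *
        facP k (ee j)).eval (i : ℂ) • (kd n (ee j) • (R j.1 j.2 : Module.End ℂ (MvPolynomial ρ ℂ))
          (f ^ ((n : ℤ) + 1 - ee j).toNat)) := by
    intro n i hi
    set N := n + i with hN
    set α : Unit →₀ ℕ := Finsupp.single () (k * i) with hα
    have hα0 : α () = k * i := Finsupp.single_eq_same
    have h1 := congrArg (fun G => hat G α) (hP N)
    rw [hat_C_mul, Finsupp.sum, hat_sum, hat_sus_pow k hk0 f N i α hα0] at h1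
    have h2 : ∀ m ∈ P.support, hat (((N : ℂ) ^ m) • ((P m : Module.End ℂ (MvPolynomial (Unit ⊕ ρ) ℂ))
        (sus k f ^ (N + 1)))) α = ∑ l : κ m,
          (((N : ℂ) ^ m * (evN α (q m l) * (fall (c m l) α : ℂ))) •
            (R m l : Module.End ℂ (MvPolynomial ρ ℂ)) (hat (sus k f ^ (N + 1)) (sh α (c m l)))) := by
      intro m _
      rw [hat_smul, hE2 m _ (hat (sus k f ^ (N + 1))) rfl, hR, Finset.smul_sum]
      refine Finset.sum_congr rfl fun l _ => ?_
      rw [smul_smul]
    rw [Finset.sum_congr rfl h2] at h1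
    have h3 : (∑ m ∈ P.support, ∑ l : κ m,
          (((N : ℂ) ^ m * (evN α (q m l) * (fall (c m l) α : ℂ))) •
            (R m l : Module.End ℂ (MvPolynomial ρ ℂ)) (hat (sus k f ^ (N + 1)) (sh α (c m l))))) =
        ∑ j : J, (((N : ℂ) ^ (j.1 : ℕ) * (evN α (q j.1 j.2) * (fall (c j.1 j.2) α : ℂ))) •
            (R j.1 j.2 : Module.End ℂ (MvPolynomial ρ ℂ))
              (hat (sus k f ^ (N + 1)) (sh α (c j.1 j.2)))) := by
      rw [Fintype.sum_sigma, ← Finset.sum_coe_sort P.support]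
    rw [h3] at h1
    have hshα : ∀ j : J, (sh α (c j.1 j.2)) () = ((k * i : ℕ) + sh' j : ℤ).toNat := by
      intro j
      rw [sh_apply, hα0]
    have hfall : ∀ j : J, fall (c j.1 j.2) α = (k * i).descFactorial (-sh' j).toNat := by
      intro j
      unfold fall
      rw [Fintype.prod_unique]
      change (α ()).descFactorial (-c j.1 j.2 ()).toNat = _
      rw [hα0]
    have hbig : ∀ j : J, 0 ≤ ((k * i : ℕ) : ℤ) + sh' j := by
      intro j
      have h4 := hI0' j
      have h5 : i ≤ k * i := Nat.le_mul_of_pos_left _ hk0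
      omega
    have hbad : ∀ j : J, j ∉ good → (((N : ℂ) ^ (j.1 : ℕ) * (evN α (q j.1 j.2) *
        (fall (c j.1 j.2) α : ℂ))) • (R j.1 j.2 : Module.End ℂ (MvPolynomial ρ ℂ))
          (hat (sus k f ^ (N + 1)) (sh α (c j.1 j.2)))) = 0 := by
      intro j hj
      have h4 : ¬ (k : ℤ) ∣ sh' j := fun h => hj (Finset.mem_filter.2 ⟨Finset.mem_univ _, h⟩)
      rw [hat_sus_pow_ne, map_zero, smul_zero]
      rw [hshα]
      intro h5
      apply h4
      have h6 : ((((k * i : ℕ) + sh' j : ℤ).toNat : ℕ) : ℤ) = ((k * i : ℕ) : ℤ) + sh' j :=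
        Int.toNat_of_nonneg (hbig j)
      have h7 : (k : ℤ) ∣ ((k * i : ℕ) : ℤ) + sh' j := by
        rw [← h6]
        exact_mod_cast h5
      have h8 : (k : ℤ) ∣ ((k * i : ℕ) : ℤ) := by
        push_cast
        exact dvd_mul_right _ _
      exact (dvd_add_right h8).1 h7
    rw [← Finset.sum_subset (Finset.subset_univ good) fun j _ hj => hbad j hj] at h1
    have hM0 : ((N + 1 : ℕ) : ℂ) * (N.choose i : ℂ) * ((k * i).factorial : ℂ) ≠ 0 := by
      refine mul_ne_zero (mul_ne_zero ?_ ?_) ?_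
      · exact_mod_cast Nat.succ_ne_zero N
      · exact_mod_cast (Nat.choose_pos (by omega : i ≤ N)).ne'
      · exact_mod_cast Nat.factorial_ne_zero _
    have hterm : ∀ j ∈ good, (((N : ℂ) ^ (j.1 : ℕ) * (evN α (q j.1 j.2) *
        (fall (c j.1 j.2) α : ℂ))) • (R j.1 j.2 : Module.End ℂ (MvPolynomial ρ ℂ))
          (hat (sus k f ^ (N + 1)) (sh α (c j.1 j.2)))) =
        (((N + 1 : ℕ) : ℂ) * (N.choose i : ℂ) * ((k * i).factorial : ℂ)) •
        (((Polynomial.X + Polynomial.C (n : ℂ)) ^ (j.1 : ℕ) * q1 j *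
        facP k (ee j)).eval (i : ℂ) • (kd n (ee j) • (R j.1 j.2 : Module.End ℂ (MvPolynomial ρ ℂ))
          (f ^ ((n : ℤ) + 1 - ee j).toNat))) := by
      intro j hj
      have h4 := hsg j hj
      have h5 : 0 ≤ (i : ℤ) + ee j := by
        have h6 := hbig j
        rw [h4] at h6
        push_cast at h6
        have h7 : 0 ≤ (k : ℤ) * ((i : ℤ) + ee j) := by linarith
        exact nonneg_of_mul_nonneg_right h7 (by exact_mod_cast hk0)
      have h6 : (sh α (c j.1 j.2)) () = k * ((i : ℤ) + ee j).toNat := by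
        rw [hshα, h4]
        have h7 : ((k * i : ℕ) : ℤ) + (k : ℤ) * ee j =
            ((k * ((i : ℤ) + ee j).toNat : ℕ) : ℤ) := by
          push_cast
          rw [Int.toNat_of_nonneg h5]
          ring
        rw [h7, Int.toNat_natCast]
      rw [hat_sus_pow k hk0 f (N + 1) _ _ h6, hfall, h4, hq1e j i α hα0, map_smul, smul_smul,
        smul_smul, smul_smul]
      have h8 := fac_term k hk0 (ee j) n i h5
      have h9 : N + 1 - ((i : ℤ) + ee j).toNat = ((n : ℤ) + 1 - ee j).toNat := by omega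
      rw [h9]
      congr 1
      rw [Polynomial.eval_mul, Polynomial.eval_mul, Polynomial.eval_pow, Polynomial.eval_add,
        Polynomial.eval_X, Polynomial.eval_C]
      have h10 : (N : ℂ) = (i : ℂ) + n := by
        rw [hN]
        push_cast
        ring
      rw [← hN] at h8
      rw [← h10]
      linear_combination (N : ℂ) ^ (j.1 : ℕ) * (q1 j).eval (i : ℂ) * h8
    rw [Finset.sum_congr rfl hterm, ← Finset.smul_sum, smul_smul] at h1
    have h11 : b.eval (N : ℂ) * ((N.choose i : ℂ) * ((k * i).factorial : ℂ)) =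
        (((N + 1 : ℕ) : ℂ) * (N.choose i : ℂ) * ((k * i).factorial : ℂ)) *
          (b'.comp (Polynomial.X + Polynomial.C (n : ℂ))).eval (i : ℂ) := by
      have h12 : (b'.comp (Polynomial.X + Polynomial.C (n : ℂ))).eval (i : ℂ) = b'.eval (N : ℂ) := by
        rw [Polynomial.eval_comp, Polynomial.eval_add, Polynomial.eval_X, Polynomial.eval_C, hN]
        push_cast
        rw [add_comm]
      rw [h12, hb', Polynomial.eval_mul, Polynomial.eval_add, Polynomial.eval_X,
        Polynomial.eval_one]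
      push_cast
      ring
    rw [h11, mul_smul] at h1
    have h12 := smul_right_injective (MvPolynomial ρ ℂ) hM0 h1
    have h13 : N - i = n := by omega
    rw [h13] at h12
    exact h12
  -- at `i = - 1 / k`
  have spec : ∀ n : ℕ, (b'.comp (Polynomial.X - Polynomial.C (1 / (k : ℂ)))).eval (n : ℂ) • f ^ n =
      ∑ j ∈ good, ((Polynomial.X + Polynomial.C (n : ℂ)) ^ (j.1 : ℕ) * q1 j *
        facP k (ee j)).eval (-(1 / (k : ℂ))) • (kd n (ee j) •
          (R j.1 j.2 : Module.End ℂ (MvPolynomial ρ ℂ)) (f ^ ((n : ℤ) + 1 - ee j).toNat)) := by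
    intro n
    rw [← poly_vec good _ _ _ _ I0 (main n) (-(1 / (k : ℂ))), Polynomial.eval_comp,
      Polynomial.eval_comp, Polynomial.eval_add, Polynomial.eval_sub, Polynomial.eval_X,
      Polynomial.eval_X, Polynomial.eval_C, Polynomial.eval_C]
    congr 2
    ring
  have e1 : (fun n : ℕ => (b'.comp (Polynomial.X - Polynomial.C (1 / (k : ℂ)))).eval (n : ℂ) •
      f ^ n) = ∑ j ∈ good, fun n : ℕ => (((Polynomial.X + Polynomial.C (n : ℂ)) ^ (j.1 : ℕ) * q1 j *
        facP k (ee j)).eval (-(1 / (k : ℂ))) • (kd n (ee j) •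
          (R j.1 j.2 : Module.End ℂ (MvPolynomial ρ ℂ)) (f ^ ((n : ℤ) + 1 - ee j).toNat))) := by
    funext n
    rw [spec n, Finset.sum_apply]
  rw [e1]
  refine Submodule.sum_mem _ fun j hj => ?_
  by_cases hpos : 0 < ee j
  · have h0 : (facP k (ee j)).eval (-(1 / (k : ℂ))) = 0 := by
      unfold facP
      rw [if_pos hpos.le]
      obtain ⟨E, hE⟩ : ∃ E, (ee j).toNat = E + 1 := ⟨(ee j).toNat - 1, by omega⟩
      rw [hE]
      exact upP_root k hk E
    have e2 : (fun n : ℕ => (((Polynomial.X + Polynomial.C (n : ℂ)) ^ (j.1 : ℕ) * q1 j *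
        facP k (ee j)).eval (-(1 / (k : ℂ))) • (kd n (ee j) •
          (R j.1 j.2 : Module.End ℂ (MvPolynomial ρ ℂ)) (f ^ ((n : ℤ) + 1 - ee j).toNat)))) = 0 := by
      funext n
      rw [Polynomial.eval_mul, h0, mul_zero, zero_smul]
      rfl
    rw [e2]
    exact Submodule.zero_mem _
  · obtain ⟨E, hE⟩ : ∃ E : ℕ, (E : ℤ) = 1 - ee j := ⟨(1 - ee j).toNat, Int.toNat_of_nonneg (by omega)⟩
    have e2 : (fun n : ℕ => (((Polynomial.X + Polynomial.C (n : ℂ)) ^ (j.1 : ℕ) * q1 j *
        facP k (ee j)).eval (-(1 / (k : ℂ))) • (kd n (ee j) •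
          (R j.1 j.2 : Module.End ℂ (MvPolynomial ρ ℂ)) (f ^ ((n : ℤ) + 1 - ee j).toNat)))) =
        fun n : ℕ => ((((Polynomial.X - Polynomial.C (1 / (k : ℂ))) ^ (j.1 : ℕ) *
          Polynomial.C ((q1 j).eval (-(1 / (k : ℂ))) * (facP k (ee j)).eval (-(1 / (k : ℂ))))).eval
            (n : ℂ) * kf n E) •
          (R j.1 j.2 : Module.End ℂ (MvPolynomial ρ ℂ)) (f ^ (n + E))) := by
      funext n
      have h1 : ((n : ℤ) + 1 - ee j).toNat = n + E := by omega
      have h2 : kd n (ee j) = kf n E := by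
        unfold kd kf
        rw [if_neg (by omega), h1]
      rw [h1, h2, smul_smul]
      congr 1
      simp only [Polynomial.eval_mul, Polynomial.eval_pow, Polynomial.eval_add,
        Polynomial.eval_sub, Polynomial.eval_X, Polynomial.eval_C]
      ring
    rw [e2]
    exact W_poly f _ E (by omega) _

end Pool.Agent.K1H20.SU
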