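import Pool.Agent.Y230.PS.Auto
import Pool.Agent.Y21.TH.JobA

set_option autoImplicit false
set_option linter.unusedSectionVars false
set_option linter.unusedVariables false

/-! # Automorphisms of the polynomial ring -/

namespace Pool.Agent.K1H20.SU

open MvPolynomial
open Pool.Agent.W574.SM Pool.Agent.W574.HS Pool.Agent.Y230.PS
open Pool.Agent.Y21.TH (ML PD ml_mem)

variable {σ : Type}

/-- conjugation by an automorphism -/
noncomputable def cjg (φ : MvPolynomial σ ℂ ≃ₐ[ℂ] MvPolynomial σ ℂ)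
    (Q : Module.End ℂ (MvPolynomial σ ℂ)) : Module.End ℂ (MvPolynomial σ ℂ) :=
  φ.symm.toLinearMap ∘ₗ Q ∘ₗ φ.toLinearMap

theorem cjg_apply (φ : MvPolynomial σ ℂ ≃ₐ[ℂ] MvPolynomial σ ℂ)
    (Q : Module.End ℂ (MvPolynomial σ ℂ)) (p : MvPolynomial σ ℂ) :
    cjg φ Q p = φ.symm (Q (φ p)) := rfl

theorem cjg_pd [Fintype σ] (φ : MvPolynomial σ ℂ ≃ₐ[ℂ] MvPolynomial σ ℂ) (i : σ) :
    cjg φ (PD i) = ∑ j, ML (φ.symm (pderiv i (φ (X j)))) * PD j := by
  classical
  refine LinearMap.ext fun g => ?_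
  rw [cjg_apply, LinearMap.sum_apply]
  change φ.symm (pderiv i (φ g)) = ∑ j, φ.symm (pderiv i (φ (X j))) * pderiv j g
  induction g using MvPolynomial.induction_on with
  | C c =>
    have h0 : φ (C c : MvPolynomial σ ℂ) = C c := φ.commutes c
    rw [h0, pderiv_C, map_zero]
    exact (Finset.sum_eq_zero fun j _ => by rw [pderiv_C, mul_zero]).symm
  | add p q hp hq =>
    rw [map_add, map_add, map_add, hp, hq, ← Finset.sum_add_distrib]
    refine Finset.sum_congr rfl fun j _ => ?_
    rw [map_add, mul_add]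
  | mul_X p j0 hp =>
    rw [map_mul, Derivation.leibniz, smul_eq_mul, smul_eq_mul, map_add, map_mul, map_mul, hp,
      AlgEquiv.symm_apply_apply, AlgEquiv.symm_apply_apply]
    have h2 : ∀ j, φ.symm (pderiv i (φ (X j))) * pderiv j (p * X j0) =
        (if j = j0 then p * φ.symm (pderiv i (φ (X j0))) else 0) +
          X j0 * (φ.symm (pderiv i (φ (X j))) * pderiv j p) := by
      intro j
      rw [Derivation.leibniz, smul_eq_mul, smul_eq_mul]
      by_cases h3 : j = j0
      · subst h3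
        rw [pderiv_X_self, if_pos rfl]
        ring
      · rw [pderiv_X_of_ne (Ne.symm h3), if_neg h3]
        ring
    rw [Finset.sum_congr rfl fun j _ => h2 j, Finset.sum_add_distrib, Finset.sum_ite_eq' _ j0,
      if_pos (Finset.mem_univ _), Finset.mul_sum]

theorem cjg_mem [Fintype σ] (φ : MvPolynomial σ ℂ ≃ₐ[ℂ] MvPolynomial σ ℂ)
    (Q : Module.End ℂ (MvPolynomial σ ℂ)) (hQ : Q ∈ weyl σ) : cjg φ Q ∈ weyl σ := by
  classical
  induction hQ using Algebra.adjoin_induction with
  | mem Q h =>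
    rcases h with ⟨i, rfl⟩ | ⟨i, rfl⟩
    · have h1 : cjg φ (LinearMap.mulLeft ℂ (X i : MvPolynomial σ ℂ)) = ML (φ.symm (X i)) := by
        refine LinearMap.ext fun g => ?_
        rw [cjg_apply]
        change φ.symm (X i * φ g) = φ.symm (X i) * g
        rw [map_mul, AlgEquiv.symm_apply_apply]
      rw [h1]
      exact ml_mem _
    · have h1 := cjg_pd φ i
      change cjg φ (PD i) ∈ weyl σ
      rw [h1]
      exact Subalgebra.sum_mem _ fun j _ => Subalgebra.mul_mem _ (ml_mem _)
        (Algebra.subset_adjoin (Or.inr ⟨j, rfl⟩))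
  | algebraMap r =>
    have h1 : cjg φ (algebraMap ℂ _ r) = algebraMap ℂ _ r := by
      refine LinearMap.ext fun g => ?_
      rw [cjg_apply]
      change φ.symm (r • φ g) = r • g
      rw [map_smul, AlgEquiv.symm_apply_apply]
    rw [h1]
    exact Subalgebra.algebraMap_mem _ r
  | add Q Q' _ _ h h' =>
    have h1 : cjg φ (Q + Q') = cjg φ Q + cjg φ Q' := by
      refine LinearMap.ext fun g => ?_
      rw [cjg_apply, LinearMap.add_apply, map_add]
      rfl
    rw [h1]
    exact Subalgebra.add_mem _ h h'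
  | mul Q Q' _ _ h h' =>
    have h1 : cjg φ (Q * Q') = cjg φ Q * cjg φ Q' := by
      refine LinearMap.ext fun g => ?_
      change φ.symm (Q (Q' (φ g))) = φ.symm (Q (φ (φ.symm (Q' (φ g)))))
      rw [AlgEquiv.apply_symm_apply]
    rw [h1]
    exact Subalgebra.mul_mem _ h h'

/-- functional equations are invariant under automorphisms -/
theorem fe_aut [Fintype σ] (φ : MvPolynomial σ ℂ ≃ₐ[ℂ] MvPolynomial σ ℂ) (f : MvPolynomial σ ℂ)
    (b : Polynomial ℂ) (hb : IsFunctionalEq (fun _ : Fin 1 => φ f) b) :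
    IsFunctionalEq (fun _ : Fin 1 => f) b :=
  functionalEq_auto φ (fun Q hQ => ⟨⟨cjg φ Q, cjg_mem φ Q hQ⟩, fun p => rfl⟩) _ b hb

end Pool.Agent.K1H20.SU
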