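import Pool.Agent.K1H20.SU.Alg
import Pool.Agent.Y230.TH.Jet

set_option autoImplicit false
set_option linter.unusedSectionVars false
set_option linter.unusedVariables false

/-! # The functional equations of a sum `f(x) + g(z)` with `g` weighted homogeneous -/

namespace Pool.Agent.K1H20.SU

open MvPolynomial
open Pool.Agent.W574.SM Pool.Agent.W574.HS Pool.Agent.W574.RO Pool.Agent.Y230.PS
open Pool.Agent.Y230.TH
open Pool.Agent.H628R4.TP (IsBFunction)

variable {σ τ : Type}

/-- an operator of weight `v` -/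
def HomOp (w : τ → ℚ) (v : ℚ) (B : Module.End ℂ (MvPolynomial τ ℂ)) : Prop :=
  ∀ (m : ℚ) (q : MvPolynomial τ ℂ), IsWeightedHomogeneous w q m →
    IsWeightedHomogeneous w (B q) (m + v)

/-- a finite sum of homogeneous operators -/
def Dec (w : τ → ℚ) (B : Module.End ℂ (MvPolynomial τ ℂ)) : Prop :=
  ∃ (K : Type) (_ : Fintype K) (v : K → ℚ) (Q : K → weyl τ),
    (∀ i, HomOp w (v i) (Q i : Module.End ℂ (MvPolynomial τ ℂ))) ∧
      B = ∑ i, (Q i : Module.End ℂ (MvPolynomial τ ℂ))

theorem dec_of_hom (w : τ → ℚ) (v : ℚ) (B : weyl τ)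
    (h : HomOp w v (B : Module.End ℂ (MvPolynomial τ ℂ))) :
    Dec w (B : Module.End ℂ (MvPolynomial τ ℂ)) :=
  ⟨Unit, inferInstance, fun _ => v, fun _ => B, fun _ => h, by
    rw [Finset.univ_unique, Finset.sum_singleton]⟩

theorem dec_weyl (w : τ → ℚ) (B : Module.End ℂ (MvPolynomial τ ℂ)) (hB : B ∈ weyl τ) :
    Dec w B := by
  classical
  induction hB using Algebra.adjoin_induction with
  | mem R h =>
    rcases h with ⟨i, rfl⟩ | ⟨i, rfl⟩
    · refine dec_of_hom w (w i) ⟨_, Algebra.subset_adjoin (Or.inl ⟨i, rfl⟩)⟩ fun m q hq => ?_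
      rw [add_comm]
      exact (isWeightedHomogeneous_X ℂ w i).mul hq
    · refine dec_of_hom w (-w i) ⟨_, Algebra.subset_adjoin (Or.inr ⟨i, rfl⟩)⟩ fun m q hq => ?_
      exact hq.pderiv (by ring)
  | algebraMap r =>
    refine dec_of_hom w 0 ⟨_, Subalgebra.algebraMap_mem _ r⟩ fun m q hq => ?_
    rw [add_zero]
    change IsWeightedHomogeneous w (r • q) m
    exact (weightedHomogeneousSubmodule ℂ w m).smul_mem r hq
  | add R S _ _ hR hS =>
    obtain ⟨K, _, v, Q, h1, rfl⟩ := hR
    obtain ⟨L, _, v', Q', h1', rfl⟩ := hS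
    refine ⟨K ⊕ L, inferInstance, Sum.elim v v', Sum.elim Q Q', ?_, ?_⟩
    · rintro (i | i)
      · exact h1 i
      · exact h1' i
    · rw [Fintype.sum_sum_type]
      rfl
  | mul R S _ _ hR hS =>
    obtain ⟨K, _, v, Q, h1, rfl⟩ := hR
    obtain ⟨L, _, v', Q', h1', rfl⟩ := hS
    refine ⟨K × L, inferInstance, fun p => v' p.2 + v p.1, fun p => Q p.1 * Q' p.2, ?_, ?_⟩
    · rintro ⟨i, j⟩ m q hq
      have h2 := h1 i _ _ (h1' j m q hq)
      rw [add_assoc] at h2
      exact h2
    · rw [Finset.sum_mul_sum, Fintype.sum_prod_type]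
      rfl

/-- the splitting of the operators, with homogeneous second factors -/
theorem splits_hom (w : τ → ℚ) (R : Module.End ℂ (MvPolynomial (σ ⊕ τ) ℂ))
    (hR : R ∈ weyl (σ ⊕ τ)) :
    ∃ (K : Type) (_ : Fintype K) (v : K → ℚ) (A : K → weyl σ) (B : K → weyl τ),
      (∀ i, HomOp w (v i) (B i : Module.End ℂ (MvPolynomial τ ℂ))) ∧
      ∀ (p : MvPolynomial σ ℂ) (q : MvPolynomial τ ℂ), R (rename Sum.inl p * rename Sum.inr q) =
        ∑ i, rename Sum.inl ((A i : Module.End ℂ (MvPolynomial σ ℂ)) p) *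
          rename Sum.inr ((B i : Module.End ℂ (MvPolynomial τ ℂ)) q) := by
  classical
  obtain ⟨m, Q, Q', h⟩ := weyl_splits R hR
  choose K hK v B h1 h2 using fun i => dec_weyl w (Q' i).1 (Q' i).2
  refine ⟨Σ i : Fin m, K i, inferInstance, fun i => v i.1 i.2, fun i => Q i.1,
    fun i => B i.1 i.2, fun i => h1 i.1 i.2, fun p q => ?_⟩
  rw [h, Fintype.sum_sigma]
  refine Finset.sum_congr rfl fun i _ => ?_
  have h3 : ((Q' i : Module.End ℂ (MvPolynomial τ ℂ)) q) =
      ∑ j, ((B i j : Module.End ℂ (MvPolynomial τ ℂ)) q) := by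
    have h4 := h2 i
    change (Q' i : Module.End ℂ (MvPolynomial τ ℂ)) = _ at h4
    rw [h4, LinearMap.sum_apply]
  rw [h3, map_sum, Finset.mul_sum]

/-- the weights on both sets of variables -/
@[reducible] def w2 (w : τ → ℚ) : σ ⊕ τ → ℚ := Sum.elim (fun _ => 0) w

theorem hom_inl (w : τ → ℚ) (p : MvPolynomial σ ℂ) :
    IsWeightedHomogeneous (w2 w : σ ⊕ τ → ℚ) (rename Sum.inl p) 0 := by
  induction p using MvPolynomial.induction_on with
  | C a =>
    rw [rename_C]
    exact isWeightedHomogeneous_C _ a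
  | add p q hp hq => rw [map_add]; exact hp.add hq
  | mul_X p i hp =>
    rw [map_mul, rename_X]
    have := hp.mul (isWeightedHomogeneous_X ℂ (w2 w : σ ⊕ τ → ℚ) (Sum.inl i))
    rwa [w2, Sum.elim_inl, add_zero] at this

theorem hom_inr (w : τ → ℚ) (q : MvPolynomial τ ℂ) (m : ℚ) (h : IsWeightedHomogeneous w q m) :
    IsWeightedHomogeneous (w2 w : σ ⊕ τ → ℚ) (rename Sum.inr q) m := by
  classical
  have h1 : rename Sum.inr q = ∑ d ∈ q.support,
      (monomial (d.mapDomain Sum.inr) (coeff d q) : MvPolynomial (σ ⊕ τ) ℂ) := by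
    conv_lhs => rw [q.as_sum]
    rw [map_sum]
    refine Finset.sum_congr rfl fun d _ => ?_
    rw [rename_monomial]
  rw [h1]
  refine IsWeightedHomogeneous.sum _ _ _ fun d hd => ?_
  refine isWeightedHomogeneous_monomial _ _ _ ?_
  rw [← h (mem_support_iff.1 hd), Finsupp.weight_apply, Finsupp.weight_apply,
    Finsupp.sum_mapDomain_index (by simp) (fun _ _ _ => by rw [add_smul])]
  rfl

theorem hom_mul (w : τ → ℚ) (p : MvPolynomial σ ℂ) (q : MvPolynomial τ ℂ) (m : ℚ)
    (h : IsWeightedHomogeneous w q m) :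
    IsWeightedHomogeneous (w2 w : σ ⊕ τ → ℚ) (rename Sum.inl p * rename Sum.inr q) m := by
  have := (hom_inl w p).mul (hom_inr (σ := σ) w q m h)
  rwa [zero_add] at this

theorem comp_mul (w : τ → ℚ) (p : MvPolynomial σ ℂ) (q : MvPolynomial τ ℂ) (m n : ℚ)
    (h : IsWeightedHomogeneous w q m) :
    weightedHomogeneousComponent (w2 w : σ ⊕ τ → ℚ) n (rename Sum.inl p * rename Sum.inr q) =
      if n = m then rename Sum.inl p * rename Sum.inr q else 0 :=
  weightedHomogeneousComponent_of_mem (hom_mul w p q m h)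

/-- the sum -/
noncomputable def two (f : MvPolynomial σ ℂ) (g : MvPolynomial τ ℂ) : MvPolynomial (σ ⊕ τ) ℂ :=
  rename Sum.inl f + rename Sum.inr g

theorem two_pow (f : MvPolynomial σ ℂ) (g : MvPolynomial τ ℂ) (N : ℕ) :
    two f g ^ N = ∑ j ∈ Finset.range (N + 1),
      (N.choose j : ℂ) • (rename Sum.inl (f ^ (N - j)) * rename Sum.inr (g ^ j)) := by
  unfold two
  rw [add_comm, add_pow]
  refine Finset.sum_congr rfl fun j _ => ?_
  rw [map_pow, map_pow, smul_eq_C_mul, map_natCast]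
  ring

theorem pow_hom (w : τ → ℚ) (g : MvPolynomial τ ℂ) (hw : IsWeightedHomogeneous w g 1) (j : ℕ) :
    IsWeightedHomogeneous w (g ^ j) (j : ℚ) := by
  have := hw.pow j
  rwa [nsmul_eq_mul, mul_one] at this

theorem comp_pow (w : τ → ℚ) (f : MvPolynomial σ ℂ) (g : MvPolynomial τ ℂ)
    (hw : IsWeightedHomogeneous w g 1) (N i : ℕ) :
    weightedHomogeneousComponent (w2 w : σ ⊕ τ → ℚ) (i : ℚ) (two f g ^ N) =
      (N.choose i : ℂ) • (rename Sum.inl (f ^ (N - i)) * rename Sum.inr (g ^ i)) := by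
  classical
  rw [two_pow, map_sum]
  have h1 : ∀ j ∈ Finset.range (N + 1), weightedHomogeneousComponent (w2 w : σ ⊕ τ → ℚ) (i : ℚ)
      ((N.choose j : ℂ) • (rename Sum.inl (f ^ (N - j)) * rename Sum.inr (g ^ j) :
        MvPolynomial (σ ⊕ τ) ℂ)) =
      if i = j then (N.choose i : ℂ) • (rename Sum.inl (f ^ (N - i)) * rename Sum.inr (g ^ i))
        else 0 := by
    intro j _
    rw [map_smul, comp_mul w _ _ _ _ (pow_hom w g hw j)]
    by_cases h : i = j
    · rw [if_pos (by rw [h]), if_pos h, h]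
    · rw [if_neg (fun h2 => h (by exact_mod_cast h2)), if_neg h, smul_zero]
  rw [Finset.sum_congr rfl h1, Finset.sum_ite_eq]
  split_ifs with h
  · rfl
  · rw [Nat.choose_eq_zero_of_lt (by rw [Finset.mem_range] at h; omega)]
    simp

theorem two_ne (w : τ → ℚ) (f : MvPolynomial σ ℂ) (g : MvPolynomial τ ℂ)
    (hw : IsWeightedHomogeneous w g 1) (hg : g ≠ 0) : two f g ≠ 0 ∧ ¬ two f g ∣ 1 := by
  classical
  set φ : MvPolynomial (σ ⊕ τ) ℂ →ₐ[ℂ] MvPolynomial τ ℂ := aeval (Sum.elim (fun _ => 0) X) with hφ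
  have h0 : φ (rename Sum.inr g) = g := by
    rw [hφ, aeval_rename]
    have e : (Sum.elim (fun _ => 0) X : σ ⊕ τ → MvPolynomial τ ℂ) ∘ Sum.inr = X := rfl
    rw [e, aeval_X_left_apply]
  obtain ⟨a, ha⟩ : ∃ a : ℂ, φ (rename Sum.inl f) = C a := by
    refine ⟨aeval (fun _ => (0 : ℂ)) f, ?_⟩
    rw [hφ, aeval_rename]
    have e : (Sum.elim (fun _ => 0) X : σ ⊕ τ → MvPolynomial τ ℂ) ∘ Sum.inl =
      fun _ => 0 := rfl
    rw [e]
    induction f using MvPolynomial.induction_on with
    | C a => rw [aeval_C, aeval_C]; rfl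
    | add p q hp hq => rw [map_add, map_add, map_add, hp, hq]
    | mul_X p i hp => rw [map_mul, map_mul, aeval_X, aeval_X, mul_zero, mul_zero, map_zero]
  have key : ∀ c : ℂ, φ (two f g) ≠ C c := by
    intro c h
    unfold two at h
    rw [map_add, h0, ha] at h
    have h1 : g = C (c - a) := by
      rw [map_sub, ← h]
      ring
    have h2 : IsWeightedHomogeneous w g 0 := by
      rw [h1]
      exact isWeightedHomogeneous_C _ _
    exact zero_ne_one (IsWeightedHomogeneous.inj_right hg h2 hw)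
  constructor
  · intro h
    refine key 0 ?_
    rw [h, map_zero, C_0]
  · intro h
    have h2 : IsUnit (φ (two f g)) := (isUnit_of_dvd_one h).map _
    rw [MvPolynomial.isUnit_iff_eq_C_of_isReduced] at h2
    obtain ⟨r, _, hr⟩ := h2
    exact key r hr

/-- `i! / (i - c)!`, and `0` if `i < c` -/
noncomputable def di (i : ℕ) (c : ℤ) : ℂ :=
  if (i : ℤ) < c then 0 else (i.factorial : ℂ) / ((((i : ℤ) - c).toNat).factorial : ℂ)

theorem choose_id (n i j : ℕ) (c : ℤ) (hj : (i : ℤ) = j + c) (hle : j ≤ n + i + 1) :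
    ((n + i + 1).choose j : ℂ) = ((n + i + 1 : ℕ) : ℂ) * ((n + i).choose i : ℂ) *
      (kd n (-c) * di i c) := by
  have h1 : ¬ (n : ℤ) + 1 < -c := by omega
  have h2 : ¬ (i : ℤ) < c := by omega
  have e1 : ((n : ℤ) + 1 - -c).toNat = n + i + 1 - j := by omega
  have e2 : ((i : ℤ) - c).toNat = j := by omega
  unfold kd di
  rw [if_neg h1, if_neg h2, e1, e2]
  have f1 : (n.factorial : ℂ) ≠ 0 := by exact_mod_cast Nat.factorial_ne_zero _
  have f2 : (i.factorial : ℂ) ≠ 0 := by exact_mod_cast Nat.factorial_ne_zero _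
  have f3 : (j.factorial : ℂ) ≠ 0 := by exact_mod_cast Nat.factorial_ne_zero _
  have f4 : ((n + i + 1 - j).factorial : ℂ) ≠ 0 := by exact_mod_cast Nat.factorial_ne_zero _
  have h3 := Nat.choose_mul_factorial_mul_factorial hle
  have h4 := Nat.choose_mul_factorial_mul_factorial (show i ≤ n + i by omega)
  rw [Nat.add_sub_cancel] at h4
  have h5 : ((n + i + 1).choose j : ℂ) * (j.factorial : ℂ) * ((n + i + 1 - j).factorial : ℂ) =
      ((n + i + 1 : ℕ) : ℂ) * (((n + i).choose i : ℂ) * (i.factorial : ℂ) * (n.factorial : ℂ)) := by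
    have h6 : (n + i + 1).choose j * j.factorial * (n + i + 1 - j).factorial =
        (n + i + 1) * ((n + i).choose i * i.factorial * n.factorial) := by
      rw [h3, h4, Nat.factorial_succ]
    exact_mod_cast h6
  field_simp
  linear_combination h5

/-- **The expansion of a functional equation.** -/
theorem two_main (w : τ → ℚ) (f : MvPolynomial σ ℂ) (g : MvPolynomial τ ℂ)
    (hw : IsWeightedHomogeneous w g 1) (hg : g ≠ 0) (b : Polynomial ℂ)
    (hb : IsBFunction (two f g) b) :
    ∃ b' : Polynomial ℂ, b = (Polynomial.X + 1) * b' ∧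
      ∃ (J : Type) (_ : Fintype J) (m : J → ℕ) (c : J → ℤ) (A : J → weyl σ) (B : J → weyl τ),
        ∀ n i : ℕ, b'.eval ((n + i : ℕ) : ℂ) • (rename Sum.inl (f ^ n) * rename Sum.inr (g ^ i) :
          MvPolynomial (σ ⊕ τ) ℂ) =
          ∑ l, (((n + i : ℕ) : ℂ) ^ m l * (kd n (-c l) * di i (c l))) •
            (rename Sum.inl ((A l : Module.End ℂ (MvPolynomial σ ℂ))
              (f ^ ((n : ℤ) + 1 + c l).toNat)) *
            rename Sum.inr ((B l : Module.End ℂ (MvPolynomial τ ℂ))
              (g ^ ((i : ℤ) - c l).toNat))) := by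
  classical
  obtain ⟨hF0, hF1⟩ := two_ne w f g hw hg
  obtain ⟨P, hP⟩ := hb
  have hm1 : b.eval (-1) = 0 := by
    refine minus_one _ 1 hF0 hF1 b P fun s => ?_
    rw [one_mul]
    exact hP s
  obtain ⟨b', hb'⟩ : (Polynomial.X + 1 : Polynomial ℂ) ∣ b := by
    have := Polynomial.dvd_iff_isRoot.2 hm1
    rwa [Polynomial.C_neg, sub_neg_eq_add, Polynomial.C_1] at this
  refine ⟨b', hb', ?_⟩
  choose K hK v A B h1 h2 using fun m : ℕ => splits_hom w (P m).1 (P m).2
  set good : (m : ℕ) → K m → Prop := fun m l => ((⌊v m l⌋ : ℤ) : ℚ) = v m l with hgood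
  refine ⟨Σ m : P.support, K m, inferInstance, fun l => l.1, fun l => ⌊v l.1 l.2⌋,
    fun l => if good l.1 l.2 then A l.1 l.2 else 0, fun l => B l.1 l.2, fun n i => ?_⟩
  set N := n + i with hN
  have h3 := congrArg (weightedHomogeneousComponent (w2 w : σ ⊕ τ → ℚ) (i : ℚ)) (hP N)
  rw [weightedHomogeneousComponent_C_mul, comp_pow w f g hw, Finsupp.sum, map_sum] at h3
  have hM0 : ((N + 1 : ℕ) : ℂ) * (N.choose i : ℂ) ≠ 0 := by
    refine mul_ne_zero ?_ ?_
    · exact_mod_cast Nat.succ_ne_zero N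
    · exact_mod_cast (Nat.choose_pos (by omega : i ≤ N)).ne'
  have hterm : ∀ m ∈ P.support, weightedHomogeneousComponent (w2 w : σ ⊕ τ → ℚ) (i : ℚ)
      (((N : ℂ) ^ m) • ((P m : Module.End ℂ (MvPolynomial (σ ⊕ τ) ℂ)) (two f g ^ (N + 1)))) =
      ∑ l : K m, (((N + 1 : ℕ) : ℂ) * (N.choose i : ℂ)) •
        (((N : ℂ) ^ m * (kd n (-⌊v m l⌋) * di i ⌊v m l⌋)) •
            (rename Sum.inl (((if good m l then A m l else 0 : weyl σ) :
              Module.End ℂ (MvPolynomial σ ℂ)) (f ^ ((n : ℤ) + 1 + ⌊v m l⌋).toNat)) *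
            rename Sum.inr ((B m l : Module.End ℂ (MvPolynomial τ ℂ))
              (g ^ ((i : ℤ) - ⌊v m l⌋).toNat)))) := by
    intro m _
    rw [map_smul, two_pow, map_sum, map_sum]
    have h4 : ∀ j ∈ Finset.range (N + 1 + 1), weightedHomogeneousComponent
        (w2 w : σ ⊕ τ → ℚ) (i : ℚ) ((P m : Module.End ℂ (MvPolynomial (σ ⊕ τ) ℂ))
          (((N + 1).choose j : ℂ) • (rename Sum.inl (f ^ (N + 1 - j)) * rename Sum.inr (g ^ j)))) =
        ∑ l : K m, if (i : ℚ) = j + v m l then ((N + 1).choose j : ℂ) •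
          (rename Sum.inl ((A m l : Module.End ℂ (MvPolynomial σ ℂ)) (f ^ (N + 1 - j))) *
            rename Sum.inr ((B m l : Module.End ℂ (MvPolynomial τ ℂ)) (g ^ j))) else 0 := by
      intro j _
      have h5 := h2 m (f ^ (N + 1 - j)) (g ^ j)
      rw [map_smul, map_smul]
      change _ • weightedHomogeneousComponent _ _ ((P m).1 _) = _
      rw [h5, map_sum, Finset.smul_sum]
      refine Finset.sum_congr rfl fun l _ => ?_
      rw [comp_mul w _ _ _ _ (h1 m l _ _ (pow_hom w g hw j))]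
      split_ifs
      · rfl
      · rw [smul_zero]
    rw [Finset.sum_congr rfl h4, Finset.sum_comm, Finset.smul_sum]
    refine Finset.sum_congr rfl fun l _ => ?_
    by_cases hg' : good m l
    · have hv : v m l = ((⌊v m l⌋ : ℤ) : ℚ) := hg'.symm
      set c := ⌊v m l⌋ with hc
      rw [if_pos hg']
      by_cases hj : ∃ j : ℕ, (i : ℤ) = j + c
      · obtain ⟨j, hj⟩ := hj
        by_cases hle : j ≤ N + 1
        · rw [Finset.sum_eq_single j]
          · rw [if_pos (by rw [hv]; exact_mod_cast hj), choose_id n i j c hj (by omega)]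
            have e1 : N + 1 - j = ((n : ℤ) + 1 + c).toNat := by omega
            have e2 : j = ((i : ℤ) - c).toNat := by omega
            rw [e1, ← e2, smul_smul, smul_smul, ← hN]
            congr 1
            ring
          · intro j' _ hj'
            rw [if_neg]
            intro h6
            apply hj'
            rw [hv] at h6
            have h7 : (i : ℤ) = j' + c := by exact_mod_cast h6
            omega
          · intro h6
            exact absurd (Finset.mem_range.2 (by omega)) h6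
        · have e1 : kd n (-c) = 0 := by
            unfold kd
            rw [if_pos (by omega)]
          rw [e1]
          simp only [zero_mul, mul_zero, zero_smul, smul_zero]
          rw [Finset.sum_eq_zero, smul_zero]
          intro j' hj'
          rw [if_neg]
          intro h6
          rw [hv] at h6
          have h7 : (i : ℤ) = j' + c := by exact_mod_cast h6
          rw [Finset.mem_range] at hj'
          omega
      · have e1 : di i c = 0 := by
          unfold di
          rw [if_pos]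
          by_contra h6
          exact hj ⟨((i : ℤ) - c).toNat, by omega⟩
        rw [e1]
        simp only [mul_zero, zero_smul, smul_zero]
        rw [Finset.sum_eq_zero, smul_zero]
        intro j' hj'
        rw [if_neg]
        intro h6
        rw [hv] at h6
        exact hj ⟨j', by exact_mod_cast h6⟩
    · rw [if_neg hg']
      have e1 : (((0 : weyl σ) : Module.End ℂ (MvPolynomial σ ℂ))
          (f ^ ((n : ℤ) + 1 + ⌊v m l⌋).toNat)) = 0 := rfl
      rw [e1, map_zero, zero_mul, smul_zero, smul_zero, Finset.sum_eq_zero, smul_zero]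
      intro j' hj'
      rw [if_neg]
      intro h6
      apply hg'
      have h7 : v m l = (((i : ℤ) - j' : ℤ) : ℚ) := by
        push_cast
        linarith
      rw [hgood]
      beta_reduce
      rw [h7, Int.floor_intCast]
  rw [Finset.sum_congr rfl hterm] at h3
  simp_rw [← Finset.smul_sum] at h3
  have h4 : N - i = n := by omega
  have h5 : C (b.eval (N : ℂ)) * ((N.choose i : ℂ) • (rename Sum.inl (f ^ (N - i)) *
      rename Sum.inr (g ^ i) : MvPolynomial (σ ⊕ τ) ℂ)) =
      (((N + 1 : ℕ) : ℂ) * (N.choose i : ℂ)) • (b'.eval (N : ℂ) •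
        (rename Sum.inl (f ^ n) * rename Sum.inr (g ^ i) : MvPolynomial (σ ⊕ τ) ℂ)) := by
    rw [C_mul', smul_smul, smul_smul, h4, hb', Polynomial.eval_mul, Polynomial.eval_add,
      Polynomial.eval_X, Polynomial.eval_one]
    congr 1
    push_cast
    ring
  rw [h5] at h3
  have h6 := smul_right_injective (MvPolynomial (σ ⊕ τ) ℂ) hM0 h3
  beta_reduce at h6
  rw [h6, Fintype.sum_sigma, ← Finset.sum_coe_sort P.support]

/-- **The jets of a functional equation of the sum.** -/
theorem two_jet [DecidableEq σ] [DecidableEq τ] (w : τ → ℚ) (f : MvPolynomial σ ℂ) (hf : f ≠ 0)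
    (g : MvPolynomial τ ℂ) (hw : IsWeightedHomogeneous w g 1) (hg : g ≠ 0) (b : Polynomial ℂ)
    (hb : IsBFunction (two f g) b) :
    ∃ b' : Polynomial ℂ, b = (Polynomial.X + 1) * b' ∧ ∀ (β : ℂ) (n : ℕ),
      FMB g β (n + if β = -1 then 1 else 0) → ∀ j < n,
        IsBFunction f ((Polynomial.X + 1) *
          (Polynomial.taylor β (Polynomial.hasseDeriv j b'))) := by
  classical
  obtain ⟨b', hb', J, _, m, c, A, B, hR⟩ := two_main w f g hw hg b hb
  refine ⟨b', hb', fun β N hβ j hj => Pool.Agent.Y21.TH.tA f hf _ ?_⟩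
  obtain ⟨ψ, hψ1, hψ2⟩ := exists_psi Pool.Agent.Y21.TH.tA g hg β N hβ j hj
  set z : J → ℕ → ℂ := fun l t => ψ (fun i : ℕ => ((i : ℂ) ^ t * di i (c l)) •
    (B l : Module.End ℂ (MvPolynomial τ ℂ)) (g ^ ((i : ℤ) - c l).toNat)) with hz
  have hz0 : ∀ l t, c l < 0 → z l t = 0 := by
    intro l t h
    refine hψ1 _ ?_
    obtain ⟨e, he⟩ : ∃ e : ℕ, (e : ℤ) = -c l := ⟨(-c l).toNat, Int.toNat_of_nonneg (by omega)⟩
    refine Submodule.subset_span ⟨t, e, B l, by omega, ?_⟩
    funext i
    have e1 : ((i : ℤ) - c l).toNat = i + e := by omega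
    rw [di, if_neg (by omega), e1, kf]
  have key : ∀ (n : ℕ) (mon : σ →₀ ℕ),
      ψ (fun i : ℕ => cof mon (b'.eval ((n + i : ℕ) : ℂ) •
        (rename Sum.inl (f ^ n) * rename Sum.inr (g ^ i) : MvPolynomial (σ ⊕ τ) ℂ))) =
      coeff mon (∑ l ∈ Finset.univ.filter (fun l => 0 ≤ c l), ∑ t ∈ Finset.range (m l + 1),
        (z l (m l - t) * ((m l).choose t : ℂ)) • (((n : ℂ) ^ t * kf n (c l + 1).toNat) •
          (A l : Module.End ℂ (MvPolynomial σ ℂ)) (f ^ (n + (c l + 1).toNat)))) := by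
    intro n mon
    have h1 : (fun i : ℕ => cof mon (b'.eval ((n + i : ℕ) : ℂ) •
        (rename Sum.inl (f ^ n) * rename Sum.inr (g ^ i) : MvPolynomial (σ ⊕ τ) ℂ))) =
        ∑ l, ∑ t ∈ Finset.range (m l + 1), (((m l).choose t : ℂ) * ((n : ℂ) ^ t * kd n (-c l)) *
          coeff mon ((A l : Module.End ℂ (MvPolynomial σ ℂ)) (f ^ ((n : ℤ) + 1 + c l).toNat))) •
          (fun i : ℕ => ((i : ℂ) ^ (m l - t) * di i (c l)) •
            (B l : Module.End ℂ (MvPolynomial τ ℂ)) (g ^ ((i : ℤ) - c l).toNat)) := by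
      funext i
      rw [hR n i, map_sum, Finset.sum_apply]
      refine Finset.sum_congr rfl fun l _ => ?_
      rw [map_smul, cof_mul, Finset.sum_apply]
      have h6 : ((n + i : ℕ) : ℂ) ^ m l = ∑ t ∈ Finset.range (m l + 1),
          (n : ℂ) ^ t * (i : ℂ) ^ (m l - t) * ((m l).choose t : ℂ) := by
        rw [Nat.cast_add, add_pow]
      rw [h6, Finset.sum_mul, Finset.sum_smul]
      refine Finset.sum_congr rfl fun t _ => ?_
      rw [Pi.smul_apply, smul_smul, smul_smul]
      congr 1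
      ring
    rw [h1]
    simp only [map_sum, map_smul]
    rw [MvPolynomial.coeff_sum, Finset.sum_filter]
    refine Finset.sum_congr rfl fun l _ => ?_
    split_ifs with hl
    · rw [MvPolynomial.coeff_sum]
      refine Finset.sum_congr rfl fun t _ => ?_
      obtain ⟨e, he⟩ : ∃ e : ℕ, (e : ℤ) = c l + 1 :=
        ⟨(c l + 1).toNat, Int.toNat_of_nonneg (by omega)⟩
      have e1 : (c l + 1).toNat = e := by omega
      have e2 : ((n : ℤ) + 1 + c l).toNat = n + e := by omega
      have e3 : kd n (-c l) = kf n e := by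
        have e4 : ((n : ℤ) + 1 - -c l).toNat = n + e := by omega
        unfold kd kf
        rw [if_neg (by omega), e4]
      rw [coeff_smul, coeff_smul, smul_eq_mul, smul_eq_mul, smul_eq_mul, e1, e2, e3]
      change _ * z l (m l - t) = _
      ring
    · refine Finset.sum_eq_zero fun t _ => ?_
      have := hz0 l (m l - t) (by omega)
      rw [hz] at this
      beta_reduce at this
      rw [this, smul_zero]
  have hfin : (fun n : ℕ => (Polynomial.taylor β (Polynomial.hasseDeriv j b')).eval (n : ℂ) •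
      f ^ n) = ∑ l ∈ Finset.univ.filter (fun l => 0 ≤ c l), ∑ t ∈ Finset.range (m l + 1),
        (z l (m l - t) * ((m l).choose t : ℂ)) • (fun n : ℕ =>
          ((n : ℂ) ^ t * kf n (c l + 1).toNat) •
          (A l : Module.End ℂ (MvPolynomial σ ℂ)) (f ^ (n + (c l + 1).toNat))) := by
    funext n
    ext mon
    have h2 : (∑ l ∈ Finset.univ.filter (fun l => 0 ≤ c l), ∑ t ∈ Finset.range (m l + 1),
        (z l (m l - t) * ((m l).choose t : ℂ)) • (fun n : ℕ =>
          ((n : ℂ) ^ t * kf n (c l + 1).toNat) •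
          (A l : Module.End ℂ (MvPolynomial σ ℂ)) (f ^ (n + (c l + 1).toNat)))) n =
        ∑ l ∈ Finset.univ.filter (fun l => 0 ≤ c l), ∑ t ∈ Finset.range (m l + 1),
        (z l (m l - t) * ((m l).choose t : ℂ)) • (((n : ℂ) ^ t * kf n (c l + 1).toNat) •
          (A l : Module.End ℂ (MvPolynomial σ ℂ)) (f ^ (n + (c l + 1).toNat))) := by
      rw [Finset.sum_apply]
      refine Finset.sum_congr rfl fun l _ => ?_
      rw [Finset.sum_apply]
      rfl
    rw [h2, ← key n mon, coeff_smul]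
    have h1 : (fun i : ℕ => cof mon (b'.eval ((n + i : ℕ) : ℂ) •
        (rename Sum.inl (f ^ n) * rename Sum.inr (g ^ i) : MvPolynomial (σ ⊕ τ) ℂ))) =
        coeff mon (f ^ n) • mg g (Polynomial.taylor (n : ℂ) b') := by
      funext i
      rw [map_smul, cof_mul, Pi.smul_apply, mg]
      change _ = _ • (Polynomial.eval (i : ℂ) (Polynomial.taylor (n : ℂ) b') • g ^ i)
      rw [smul_comm, Polynomial.taylor_eval, Nat.cast_add, add_comm (i : ℂ)]
    rw [h1, map_smul, hψ2, smul_eq_mul, smul_eq_mul, mul_comm, Polynomial.taylor_taylor,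
      Polynomial.taylor_coeff, Polynomial.taylor_eval, add_comm β]
  rw [hfin]
  refine Submodule.sum_mem _ fun l hl => Submodule.sum_mem _ fun t _ =>
    Submodule.smul_mem _ _ (Submodule.subset_span ⟨t, (c l + 1).toNat, A l, ?_, rfl⟩)
  have := (Finset.mem_filter.1 hl).2
  omega

/-- **Forced multiplicities of a sum.** -/
theorem two_dvd [DecidableEq σ] [DecidableEq τ] (w : τ → ℚ) (f : MvPolynomial σ ℂ) (hf : f ≠ 0)
    (g : MvPolynomial τ ℂ) (hw : IsWeightedHomogeneous w g 1) (hg : g ≠ 0) (b : Polynomial ℂ)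
    (hb : IsBFunction (two f g) b) :
    ∃ b' : Polynomial ℂ, b = (Polynomial.X + 1) * b' ∧ ∀ (α β : ℂ) (m n : ℕ), 1 ≤ m → 1 ≤ n →
      FMB f α (m + if α = -1 then 1 else 0) → FMB g β (n + if β = -1 then 1 else 0) →
        (Polynomial.X - Polynomial.C (α + β)) ^ (m + n - 1) ∣ b' := by
  obtain ⟨b', e, h⟩ := two_jet w f hf g hw hg b hb
  refine ⟨b', e, fun α β m n hm hn hα hβ => ?_⟩
  rw [dvd_iff_taylor]
  intro k hk
  obtain ⟨j, i, hj, hi, rfl⟩ : ∃ j i, j < n ∧ i < m ∧ k = i + j := by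
    by_cases h : k < m
    · exact ⟨0, k, by omega, h, rfl⟩
    · exact ⟨k + 1 - m, m - 1, by omega, by omega, by omega⟩
  have h1 := dvd_of_succ α m _ (hα _ (h β n hβ j hj))
  have h2 := (dvd_iff_taylor α m _).1 h1 i hi
  rw [Polynomial.taylor_taylor, Polynomial.taylor_coeff] at h2
  have h3 := congrArg (fun L : Polynomial ℂ →ₗ[ℂ] Polynomial ℂ => (L b').eval (α + β))
    (Polynomial.hasseDeriv_comp (R := ℂ) i j)
  simp only [LinearMap.comp_apply, LinearMap.smul_apply] at h3
  rw [h2, Polynomial.eval_smul, nsmul_eq_mul] at h3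
  rw [Polynomial.taylor_coeff]
  have h4 : ((i + j).choose i : ℂ) ≠ 0 := by
    exact_mod_cast (Nat.choose_pos (by omega)).ne'
  exact (mul_eq_zero.1 h3.symm).resolve_left h4

end Pool.Agent.K1H20.SU
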