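import Pool.Agent.K1H20.SU.Alg
import Pool.Agent.Y230.PS.Auto

set_option autoImplicit false
set_option linter.unusedSectionVars false
set_option linter.unusedVariables false

/-! # The functional equations of a power `f ^ m` -/

namespace Pool.Agent.K1H20.SU

open MvPolynomial
open Pool.Agent.W574.SM Pool.Agent.W574.HS
open Pool.Agent.H628R4.TP (IsBFunction weylS)
open Pool.Agent.Y21.TH (ML PD nn_weyl NN poly_zero)

variable {σ : Type}

/-- evaluation of an element of `D[s]` at `s`, applied to `h` -/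
noncomputable def evP (s : ℂ) (h : MvPolynomial σ ℂ) : (ℕ →₀ weylS σ) →+ MvPolynomial σ ℂ where
  toFun P := P.sum fun m Q => (s ^ m) • (Q : Module.End ℂ (MvPolynomial σ ℂ)) h
  map_zero' := by simp
  map_add' P P' := Finsupp.sum_add_index' (by simp) (fun m Q Q' => by simp)

/-- a functional equation with polynomial coefficients -/
theorem isB_of_sum {J : Type} (S : Finset J) (f : MvPolynomial σ ℂ) (b : Polynomial ℂ)
    (p : J → Polynomial ℂ) (Q : J → weylS σ)
    (h : ∀ t : ℕ, C (b.eval (t : ℂ)) * f ^ t = ∑ j ∈ S, (p j).eval (t : ℂ) •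
      (Q j : Module.End ℂ (MvPolynomial σ ℂ)) (f ^ (t + 1))) : IsBFunction f b := by
  classical
  refine ⟨∑ j ∈ S, ∑ k ∈ (p j).support, Finsupp.single k ((p j).coeff k • Q j), fun t => ?_⟩
  rw [h]
  have e : ∀ P : ℕ →₀ weylS σ, (P.sum fun m Q => ((t : ℂ) ^ m) •
      (Q : Module.End ℂ (MvPolynomial σ ℂ)) (f ^ (t + 1))) = evP (t : ℂ) (f ^ (t + 1)) P :=
    fun _ => rfl
  rw [e, map_sum]
  refine Finset.sum_congr rfl fun j _ => ?_
  rw [map_sum, Polynomial.eval_eq_sum, Polynomial.sum, Finset.sum_smul]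
  refine Finset.sum_congr rfl fun k _ => ?_
  rw [← e, Finsupp.sum_single_index (by simp)]
  change _ = ((t : ℂ) ^ k) • ((p j).coeff k • (Q j : Module.End ℂ (MvPolynomial σ ℂ)) _)
  rw [smul_smul, mul_comm]

/-- an operator which annihilates `1`, applied to the powers -/
theorem kill_one (Q : Module.End ℂ (MvPolynomial σ ℂ)) (hQ : Q ∈ weyl σ) (h1 : Q 1 = 0)
    (f : MvPolynomial σ ℂ) :
    ∃ R : weyl σ, ∀ l : ℕ, Q (f ^ (l + 1)) =
      ((l : ℂ) + 1) • (R : Module.End ℂ (MvPolynomial σ ℂ)) (f ^ l) := by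
  classical
  have key : ∀ N ∈ NN σ, ∃ (h : MvPolynomial σ ℂ) (R : weyl σ), N 1 = h ∧
      ∀ l : ℕ, N (f ^ (l + 1)) = h * f ^ (l + 1) +
        ((l : ℂ) + 1) • (R : Module.End ℂ (MvPolynomial σ ℂ)) (f ^ l) := by
    intro N hN
    induction hN using Submodule.span_induction with
    | mem N hN =>
      rcases hN with ⟨h, rfl⟩ | ⟨A, i, hA, rfl⟩
      · refine ⟨h, 0, mul_one h, fun l => ?_⟩
        change h * _ = h * _ + _ • (0 : MvPolynomial σ ℂ)
        rw [smul_zero, add_zero]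
      · refine ⟨0, ⟨A * ML (pderiv i f), Subalgebra.mul_mem _ hA (Pool.Agent.Y21.TH.ml_mem _)⟩,
          ?_, fun l => ?_⟩
        · change A (pderiv i 1) = 0
          rw [pderiv_one, map_zero]
        · change A (pderiv i (f ^ (l + 1))) = 0 * _ + _ • A (pderiv i f * f ^ l)
          rw [Derivation.leibniz_pow, Nat.add_sub_cancel, smul_eq_mul, zero_mul, zero_add,
            ← map_smul, mul_comm (pderiv i f)]
          congr 1
          rw [← Nat.cast_smul_eq_nsmul ℂ]
          push_cast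
          rfl
    | zero =>
      exact ⟨0, 0, rfl, fun l => by
        change (0 : MvPolynomial σ ℂ) = 0 * _ + _ • (0 : MvPolynomial σ ℂ)
        rw [zero_mul, smul_zero, add_zero]⟩
    | add N N' _ _ h h' =>
      obtain ⟨h, R, h1, h2⟩ := h
      obtain ⟨h', R', h1', h2'⟩ := h'
      refine ⟨h + h', R + R', by rw [LinearMap.add_apply, h1, h1'], fun l => ?_⟩
      rw [LinearMap.add_apply, h2, h2']
      change _ = _ + _ • ((R : Module.End ℂ (MvPolynomial σ ℂ)) _ +
        (R' : Module.End ℂ (MvPolynomial σ ℂ)) _)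
      rw [smul_add, add_mul]
      ring
    | smul c N _ h =>
      obtain ⟨h, R, h1, h2⟩ := h
      refine ⟨c • h, c • R, by rw [LinearMap.smul_apply, h1], fun l => ?_⟩
      rw [LinearMap.smul_apply, h2]
      change _ = _ + _ • (c • (R : Module.End ℂ (MvPolynomial σ ℂ)) _)
      rw [smul_add, smul_mul_assoc, smul_comm c]
  obtain ⟨h, R, h2, h3⟩ := key Q (nn_weyl Q hQ)
  have h4 : h = 0 := by rw [← h2, h1]
  refine ⟨R, fun l => ?_⟩
  rw [h3, h4, zero_mul, zero_add]

theorem unit_of_pow (f : MvPolynomial σ ℂ) (hf1 : ¬ f ∣ 1) (m : ℕ) (hm : 0 < m) (c : ℂ)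
    (G : MvPolynomial σ ℂ) (h : f ^ m * G = C c) : c = 0 := by
  by_contra hc
  apply hf1
  have h1 : f ^ m ∣ 1 := ⟨G * C c⁻¹, by
    rw [← mul_assoc, h, ← C_mul, mul_inv_cancel₀ hc, C_1]⟩
  exact (dvd_pow_self f hm.ne').trans h1

theorem seq_fin (f : MvPolynomial σ ℂ) (S : Finset ℕ) (p : ℕ → Polynomial ℂ)
    (Q : ℕ → weylS σ) : Seq f fun l => ∑ j ∈ S, (p j).eval (l : ℂ) •
      (Q j : Module.End ℂ (MvPolynomial σ ℂ)) (f ^ l) := by
  classical
  induction S using Finset.induction_on with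
  | empty => exact ⟨0, 0, fun n => by simp⟩
  | insert m s hm ih =>
    obtain ⟨K, r, h1⟩ := ih
    obtain ⟨K', r', h2⟩ := act_pow f (Q m : Module.End ℂ (MvPolynomial σ ℂ)) (Q m).2
      (fun k => f ^ k) ⟨0, 1, fun n => by
        change f ^ 0 * f ^ n = _
        rw [Polynomial.eval_one, pow_zero]⟩
    refine ⟨K + K', Polynomial.C (f ^ K) * (p m).map C * r' + Polynomial.C (f ^ K') * r,
      fun n => ?_⟩
    have h3 : (p m).eval (n : ℂ) • (Q m : Module.End ℂ (MvPolynomial σ ℂ)) (f ^ n) =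
        ((p m).map C).eval (n : MvPolynomial σ ℂ) *
          (Q m : Module.End ℂ (MvPolynomial σ ℂ)) (f ^ n) := by
      rw [← C_mul']
      congr 1
      have : (n : MvPolynomial σ ℂ) = C (n : ℂ) := (map_natCast C n).symm
      rw [this, Polynomial.eval_map_apply]
    change f ^ (K + K') * (∑ m ∈ insert m s,
      (p m).eval (n : ℂ) • (Q m : Module.End ℂ (MvPolynomial σ ℂ)) (f ^ n)) = _
    rw [Finset.sum_insert hm, h3, Polynomial.eval_add, Polynomial.eval_mul, Polynomial.eval_mul,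
      Polynomial.eval_mul, Polynomial.eval_C, Polynomial.eval_C, pow_add]
    linear_combination f ^ K * ((p m).map C).eval (n : MvPolynomial σ ℂ) * h2 n + f ^ K' * h1 n

/-- **The functional equations of a power.** If `b` satisfies a functional equation for `f ^ m`,
`m ≥ 2`, then `b(s) = (s + 1) b'(s)`, and `b'(s / m)` satisfies one for `f`. -/
theorem pow_fe (f : MvPolynomial σ ℂ) (hf0 : f ≠ 0) (hf1 : ¬ f ∣ 1) (m : ℕ) (hm : 2 ≤ m)
    (b : Polynomial ℂ) (hb : IsBFunction (f ^ m) b) :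
    ∃ b' : Polynomial ℂ, b = (Polynomial.X + 1) * b' ∧
      IsBFunction f (b'.comp (Polynomial.C (1 / (m : ℂ)) * Polynomial.X)) := by
  classical
  have hmC : (m : ℂ) ≠ 0 := by exact_mod_cast (by omega : m ≠ 0)
  obtain ⟨P, hP⟩ := hb
  -- the operators in terms of `l = m (s + 1)`
  set lin : Polynomial ℂ := Polynomial.C (1 / (m : ℂ)) * Polynomial.X - 1 with hlin
  have hlin_eval : ∀ x : ℂ, lin.eval x = 1 / (m : ℂ) * x - 1 := fun x => by
    rw [hlin, Polynomial.eval_sub, Polynomial.eval_mul, Polynomial.eval_C, Polynomial.eval_X,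
      Polynomial.eval_one]
  set G : ℕ → MvPolynomial σ ℂ := fun l => ∑ j ∈ P.support, (lin ^ j).eval (l : ℂ) •
      (P j : Module.End ℂ (MvPolynomial σ ℂ)) (f ^ l) with hG
  set bh : Polynomial ℂ := b.comp lin with hbh
  obtain ⟨M, r, hr⟩ := seq_fin f P.support (fun j => lin ^ j) P
  change ∀ n, f ^ M * G n = _ at hr
  have hGs : ∀ s : ℕ, G (m * (s + 1)) = C (b.eval (s : ℂ)) * f ^ (m * s) := by
    intro s
    have h1 := hP s
    rw [← pow_mul, ← pow_mul] at h1
    rw [h1, Finsupp.sum]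
    refine Finset.sum_congr rfl fun j _ => ?_
    rw [Polynomial.eval_pow, hlin_eval]
    congr 2
    push_cast
    field_simp
    ring
  have hpoly : r * Polynomial.C (f ^ m) = Polynomial.C (f ^ M) * bh.map C := by
    rw [← sub_eq_zero]
    refine Polynomial.eq_zero_of_infinite_isRoot _ ?_
    refine Set.Infinite.mono ?_ (Set.infinite_range_of_injective
      (f := fun s : ℕ => ((m * (s + 1) : ℕ) : MvPolynomial σ ℂ)) ?_)
    · rintro _ ⟨s, rfl⟩
      change Polynomial.eval _ _ = 0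
      rw [Polynomial.eval_sub, Polynomial.eval_mul, Polynomial.eval_mul, Polynomial.eval_C,
        Polynomial.eval_C]
      have h1 := hr (m * (s + 1))
      rw [hGs] at h1
      have h2 : (bh.map C).eval ((m * (s + 1) : ℕ) : MvPolynomial σ ℂ) = C (b.eval (s : ℂ)) := by
        have : ((m * (s + 1) : ℕ) : MvPolynomial σ ℂ) = C ((m * (s + 1) : ℕ) : ℂ) :=
          (map_natCast C _).symm
        rw [this, Polynomial.eval_map_apply, hbh, Polynomial.eval_comp, hlin_eval]
        congr 2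
        push_cast
        field_simp
        ring
      rw [h2]
      have h3 : f ^ (m * (s + 1)) ≠ 0 := pow_ne_zero _ hf0
      apply mul_right_cancel₀ h3
      have h4 : f ^ (m * (s + 1)) = f ^ (m * s) * f ^ m := by rw [mul_add, mul_one, pow_add]
      rw [zero_mul]
      linear_combination (-f ^ m) * h1 + f ^ M * C (b.eval (s : ℂ)) * (-1 : MvPolynomial σ ℂ) * h4
    · intro a b hab
      have h1 : m * (a + 1) = m * (b + 1) := Nat.cast_injective hab
      have h2 := Nat.eq_of_mul_eq_mul_left (by omega) h1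
      omega
  have hall : ∀ l : ℕ, f ^ m * G l = C (bh.eval (l : ℂ)) * f ^ l := by
    intro l
    have h1 := congrArg (fun p : Polynomial (MvPolynomial σ ℂ) => p.eval (l : MvPolynomial σ ℂ))
      hpoly
    simp only [Polynomial.eval_mul, Polynomial.eval_C] at h1
    have h2 : (bh.map C).eval (l : MvPolynomial σ ℂ) = C (bh.eval (l : ℂ)) := by
      have : (l : MvPolynomial σ ℂ) = C (l : ℂ) := (map_natCast C _).symm
      rw [this, Polynomial.eval_map_apply]
    rw [h2] at h1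
    apply mul_left_cancel₀ (pow_ne_zero M hf0)
    linear_combination f ^ m * hr l + f ^ l * h1
  -- at `l = 0`
  have h0 := hall 0
  rw [pow_zero, mul_one] at h0
  have hb0 : bh.eval 0 = 0 := by
    have := unit_of_pow f hf1 m (by omega) _ _ h0
    rwa [Nat.cast_zero] at this
  have hG0 : G 0 = 0 := by
    rw [Nat.cast_zero, hb0, C_0] at h0
    exact (mul_eq_zero.1 h0).resolve_left (pow_ne_zero _ hf0)
  set Q0 : weylS σ := ∑ j ∈ P.support, ((-1 : ℂ) ^ j) • P j with hQ0
  have hQ0a : ∀ h : MvPolynomial σ ℂ, (Q0 : Module.End ℂ (MvPolynomial σ ℂ)) h =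
      ∑ j ∈ P.support, ((-1 : ℂ) ^ j) • (P j : Module.End ℂ (MvPolynomial σ ℂ)) h := by
    intro h
    have h1 : (Q0 : Module.End ℂ (MvPolynomial σ ℂ)) =
        ∑ j ∈ P.support, ((-1 : ℂ) ^ j) • (P j : Module.End ℂ (MvPolynomial σ ℂ)) := by
      rw [hQ0]
      change (weylS σ).subtype _ = _
      rw [map_sum]
      rfl
    rw [h1, LinearMap.sum_apply]
    rfl
  have hQ01 : (Q0 : Module.End ℂ (MvPolynomial σ ℂ)) 1 = 0 := by
    rw [hQ0a, ← hG0, hG]
    refine Finset.sum_congr rfl fun j _ => ?_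
    rw [Polynomial.eval_pow, hlin_eval, Nat.cast_zero, mul_zero, zero_sub, pow_zero]
  obtain ⟨R, hR⟩ := kill_one _ Q0.2 hQ01 f
  -- division by `l`
  obtain ⟨ch, hch⟩ : Polynomial.X ∣ bh := by
    rw [Polynomial.X_dvd_iff, Polynomial.coeff_zero_eq_eval_zero, hb0]
  have hdiv : ∀ j : ℕ, ∃ q : Polynomial ℂ, lin ^ j = Polynomial.C ((-1) ^ j) + Polynomial.X * q := by
    intro j
    obtain ⟨q, hq⟩ : Polynomial.X ∣ lin ^ j - Polynomial.C ((-1) ^ j) := by
      rw [Polynomial.X_dvd_iff, Polynomial.coeff_zero_eq_eval_zero, Polynomial.eval_sub,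
        Polynomial.eval_pow, hlin_eval, Polynomial.eval_C, mul_zero, zero_sub, sub_self]
    exact ⟨q, by rw [← hq]; ring⟩
  choose q hq using hdiv
  have hGl : ∀ l : ℕ, G (l + 1) = ((l : ℂ) + 1) • ((R : Module.End ℂ (MvPolynomial σ ℂ)) (f ^ l) +
      ∑ j ∈ P.support, (q j).eval ((l : ℂ) + 1) •
        (P j : Module.End ℂ (MvPolynomial σ ℂ)) (f ^ (l + 1))) := by
    intro l
    rw [smul_add, ← hR, hQ0a, Finset.smul_sum, ← Finset.sum_add_distrib, hG]
    refine Finset.sum_congr rfl fun j _ => ?_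
    rw [hq, smul_smul, ← add_smul, Polynomial.eval_add, Polynomial.eval_C, Polynomial.eval_mul,
      Polynomial.eval_X]
    push_cast
    rfl
  obtain ⟨K, rfl⟩ : ∃ K, m = K + 2 := ⟨m - 2, by omega⟩
  have hfin : ∀ t : ℕ, C (ch.eval ((t : ℂ) + (K + 2 : ℕ))) * f ^ t =
      (R : Module.End ℂ (MvPolynomial σ ℂ)) (f ^ K * f ^ (t + 1)) +
      ∑ j ∈ P.support, (q j).eval ((t : ℂ) + (K + 2 : ℕ)) •
        (P j : Module.End ℂ (MvPolynomial σ ℂ)) (f ^ (K + 1) * f ^ (t + 1)) := by
    intro t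
    have h1 := hall (t + (K + 1) + 1)
    rw [hGl] at h1
    have h2 : (((t + (K + 1) : ℕ) : ℂ) + 1) ≠ 0 := by
      have : ((t + (K + 1) + 1 : ℕ) : ℂ) ≠ 0 := Nat.cast_ne_zero.2 (Nat.succ_ne_zero _)
      exact_mod_cast this
    have e1 : bh.eval ((t + (K + 1) + 1 : ℕ) : ℂ) = (((t + (K + 1) : ℕ) : ℂ) + 1) *
        ch.eval ((t : ℂ) + (K + 2 : ℕ)) := by
      rw [hch, Polynomial.eval_mul, Polynomial.eval_X]
      push_cast
      ring_nf
    have e2 : (((t + (K + 1) : ℕ) : ℂ) + 1) = (t : ℂ) + (K + 2 : ℕ) := by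
      push_cast
      ring
    have e3 : f ^ (t + (K + 1)) = f ^ K * f ^ (t + 1) := by rw [← pow_add]; congr 1; omega
    have e4 : f ^ (t + (K + 1) + 1) = f ^ (K + 1) * f ^ (t + 1) := by
      rw [← pow_add]; congr 1; omega
    rw [e1, e3, e4] at h1
    set U := (R : Module.End ℂ (MvPolynomial σ ℂ)) (f ^ K * f ^ (t + 1)) +
      ∑ j ∈ P.support, (q j).eval (((t + (K + 1) : ℕ) : ℂ) + 1) •
        (P j : Module.End ℂ (MvPolynomial σ ℂ)) (f ^ (K + 1) * f ^ (t + 1)) with hU
    have h3 : C (ch.eval ((t : ℂ) + (K + 2 : ℕ))) * f ^ t = U := by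
      have h5 : C (((t + (K + 1) : ℕ) : ℂ) + 1) ≠ (0 : MvPolynomial σ ℂ) := by
        rw [Ne, C_eq_zero]
        exact h2
      apply mul_left_cancel₀ (mul_ne_zero (pow_ne_zero (K + 2) hf0) h5)
      rw [← C_mul', map_mul] at h1
      have e5 : f ^ (K + 1) * f ^ (t + 1) = f ^ (K + 2) * f ^ t := by
        rw [← pow_add, ← pow_add]; congr 1; omega
      rw [e5] at h1
      linear_combination -h1
    rw [h3, hU, e2]
  -- the result
  refine ⟨Polynomial.C ((K + 2 : ℕ) : ℂ) * ch.comp (Polynomial.C ((K + 2 : ℕ) : ℂ) *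
    (Polynomial.X + 1)), ?_, ?_⟩
  · have h1 : b = bh.comp (Polynomial.C ((K + 2 : ℕ) : ℂ) * (Polynomial.X + 1)) := by
      rw [hbh, Polynomial.comp_assoc, hlin]
      have : (Polynomial.C (1 / (((K + 2 : ℕ)) : ℂ)) * Polynomial.X - 1 : Polynomial ℂ).comp
          (Polynomial.C ((K + 2 : ℕ) : ℂ) * (Polynomial.X + 1)) = Polynomial.X := by
        rw [Polynomial.sub_comp, Polynomial.mul_comp, Polynomial.C_comp, Polynomial.X_comp,
          Polynomial.one_comp, ← mul_assoc, ← Polynomial.C_mul, one_div, inv_mul_cancel₀ hmC,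
          Polynomial.C_1]
        ring
      rw [this, Polynomial.comp_X]
    conv_lhs => rw [h1, hch]
    rw [Polynomial.mul_comp, Polynomial.X_comp]
    ring
  · refine isB_of_sum (Finset.univ : Finset (Option P.support)) f _
      (fun o => o.elim (Polynomial.C ((K + 2 : ℕ) : ℂ)) fun j => Polynomial.C ((K + 2 : ℕ) : ℂ) *
        (q j.1).comp (Polynomial.X + Polynomial.C ((K + 2 : ℕ) : ℂ)))
      (fun o => o.elim (⟨(R : Module.End ℂ (MvPolynomial σ ℂ)) * ML (f ^ K),
        Subalgebra.mul_mem _ R.2 (Pool.Agent.Y21.TH.ml_mem _)⟩ : weylS σ)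
        fun j => (⟨(P j.1 : Module.End ℂ (MvPolynomial σ ℂ)) * ML (f ^ (K + 1)),
          Subalgebra.mul_mem _ (P j.1).2 (Pool.Agent.Y21.TH.ml_mem _)⟩ : weylS σ)) fun t => ?_
    rw [Fintype.sum_option]
    have e1 : ((Polynomial.C ((K + 2 : ℕ) : ℂ) * ch.comp (Polynomial.C ((K + 2 : ℕ) : ℂ) *
        (Polynomial.X + 1))).comp (Polynomial.C (1 / (((K + 2 : ℕ)) : ℂ)) * Polynomial.X)).eval
          (t : ℂ) = ((K + 2 : ℕ) : ℂ) * ch.eval ((t : ℂ) + (K + 2 : ℕ)) := by
      rw [Polynomial.eval_comp, Polynomial.eval_mul, Polynomial.eval_C, Polynomial.eval_comp]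
      simp only [Polynomial.eval_mul, Polynomial.eval_C, Polynomial.eval_X, Polynomial.eval_add,
        Polynomial.eval_one]
      congr 2
      field_simp
    rw [e1, C_mul, mul_assoc, hfin t, mul_add]
    congr 1
    · change _ = _ • (R : Module.End ℂ (MvPolynomial σ ℂ)) (f ^ K * f ^ (t + 1))
      rw [C_mul']
      congr 1
      exact Polynomial.eval_C.symm
    · rw [← Finset.sum_coe_sort P.support, Finset.mul_sum]
      refine Finset.sum_congr rfl fun j _ => ?_
      change _ = Polynomial.eval (t : ℂ) (Polynomial.C ((K + 2 : ℕ) : ℂ) *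
        (q j.1).comp (Polynomial.X + Polynomial.C ((K + 2 : ℕ) : ℂ))) •
        (P j.1 : Module.End ℂ (MvPolynomial σ ℂ)) (f ^ (K + 1) * f ^ (t + 1))
      rw [C_mul', smul_smul, Polynomial.eval_mul, Polynomial.eval_C, Polynomial.eval_comp,
        Polynomial.eval_add, Polynomial.eval_X, Polynomial.eval_C]

end Pool.Agent.K1H20.SU
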