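import Pool.Agent.K1H20.SU.Defs
import Pool.Agent.K1H20.SU.Dec
import Pool.Agent.K1H20.SU.Pow
import Pool.Agent.K1H20.SU.Aut

set_option autoImplicit false
set_option linter.unusedSectionVars false
set_option linter.unusedVariables false

/-! # The closure theorem -/

namespace Pool.Agent.K1H20.SU

open Polynomial Pool.Agent.W574.SM Pool.Agent.W574.CN Pool.Agent.W574.RO Pool.Agent.Y229
open Pool.Agent.W574.HS Pool.Agent.Y230.PS Pool.Agent.Y230.TH Pool.Agent.K1H20.TQ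
open Pool.Agent.H628R4.TP (IsBFunction)

/-- a hypersurface as a family -/
@[reducible] noncomputable def hyp (σ : Type) (f : MvPolynomial σ ℂ) : Fam := ⟨σ, Fin 1, fun _ => f⟩

/-- the property of the members of the class -/
structure Sh (σ : Type) (f : MvPolynomial σ ℂ) (Z₀ : RatFunc ℂ) (Z : ℕ → RatFunc ℂ) : Prop where
  cq : Cq (hyp σ f) Z₀
  m1 : FM (fun _ : Fin 1 => f) (-1) 1
  cw : ∀ e, 2 ≤ e → Cw (hyp σ f) (Z e)

theorem Sh.ne {σ : Type} {f : MvPolynomial σ ℂ} {Z₀ : RatFunc ℂ} {Z : ℕ → RatFunc ℂ}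
    (h : Sh σ f Z₀ Z) : f ≠ 0 := by
  obtain ⟨j, hj⟩ := h.cq.ne
  exact hj

theorem nonunit {σ : Type} (f : MvPolynomial σ ℂ) (h : FM (fun _ : Fin 1 => f) (-1) 1) :
    ¬ f ∣ 1 := by
  rintro ⟨g, hg⟩
  have h1 : IsBFunction f 1 := by
    refine isB_of_sum (Finset.univ : Finset Unit) f 1 (fun _ => 1)
      (fun _ => (⟨Pool.Agent.Y21.TH.ML g, Pool.Agent.Y21.TH.ml_mem g⟩ :
        Pool.Agent.H628R4.TP.weylS σ)) fun t => ?_
    rw [Finset.univ_unique, Finset.sum_singleton]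
    change MvPolynomial.C (eval (t : ℂ) 1) * f ^ t = eval (t : ℂ) 1 • (g * f ^ (t + 1))
    rw [eval_one, MvPolynomial.C_1, one_mul, one_smul, pow_succ]
    linear_combination f ^ t * hg
  have h2 := h 1 (single_of_isB f 1 h1)
  rw [pow_one] at h2
  have h3 := dvd_iff_isRoot.1 h2
  rw [IsRoot.def, eval_one] at h3
  exact one_ne_zero h3

/-- the multiplicities of the roots of the functional equations of a sum -/
def SS {σ τ : Type} (f : MvPolynomial σ ℂ) (g : MvPolynomial τ ℂ) (b' : ℂ[X]) : Prop :=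
  ∀ (α β : ℂ) (m n : ℕ), 1 ≤ m → 1 ≤ n → FM (fun _ : Fin 1 => f) α (m + dl α) →
    FM (fun _ : Fin 1 => g) β (n + dl β) → (X - C (α + β)) ^ (m + n - 1) ∣ b'

theorem fm_two {σ τ : Type} (f : MvPolynomial σ ℂ) (g : MvPolynomial τ ℂ) (hf : f ≠ 0)
    (hg : g ≠ 0) (w : τ → ℚ) (hw : MvPolynomial.IsWeightedHomogeneous w g 1) (b : ℂ[X])
    (hb : IsFunctionalEq (fun _ : Fin 1 => (MvPolynomial.rename Sum.inl f +
      MvPolynomial.rename Sum.inr g : MvPolynomial (σ ⊕ τ) ℂ)) b) :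
    ∃ b' : ℂ[X], b = (X + 1) * b' ∧ SS f g b' := by
  classical
  obtain ⟨b', e, h⟩ := two_dvd w f hf g hw hg b (isB_of_single _ b hb)
  refine ⟨b', e, fun α β m n hm hn hα hβ => h α β m n hm hn ?_ ?_⟩
  · intro b1 hb1
    have h3 := hα b1 (single_of_isB _ b1 hb1)
    rw [dl_eq] at h3
    exact h3
  · intro b1 hb1
    have h3 := hβ b1 (single_of_isB _ b1 hb1)
    rw [dl_eq] at h3
    exact h3

/-- the order of the pole at `s` is at most the multiplicity of the root `s` -/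
def Bd (S : ℂ[X] → Prop) (s : ℂ) (G : RatFunc ℂ) : Prop :=
  ∃ n : ℕ, PO s n G ∧ ∀ b' : ℂ[X], S b' → (X - C s) ^ n ∣ b'

theorem Bd.of_reg {S : ℂ[X] → Prop} {s : ℂ} {G : RatFunc ℂ} (h : G ∈ Reg s) : Bd S s G :=
  ⟨0, PO_zero h, fun b' _ => by rw [pow_zero]; exact one_dvd _⟩

theorem Bd.add {S : ℂ[X] → Prop} {s : ℂ} {G H : RatFunc ℂ} (h : Bd S s G) (h' : Bd S s H) :
    Bd S s (G + H) := by
  obtain ⟨n, h1, h2⟩ := h
  obtain ⟨m, h3, h4⟩ := h'
  refine ⟨max n m, (h1.mono (le_max_left _ _)).add (h3.mono (le_max_right _ _)), fun b' hb => ?_⟩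
  rcases max_choice n m with h | h
  · rw [h]
    exact h2 b' hb
  · rw [h]
    exact h4 b' hb

theorem Bd.reg_mul {S : ℂ[X] → Prop} {s : ℂ} {G H : RatFunc ℂ} (h : H ∈ Reg s)
    (h' : Bd S s G) : Bd S s (H * G) := by
  obtain ⟨n, h1, h2⟩ := h'
  exact ⟨n, PO.reg_mul h h1, h2⟩

theorem Bd.sub {S : ℂ[X] → Prop} {s : ℂ} {G H : RatFunc ℂ} (h : Bd S s G) (h' : Bd S s H) :
    Bd S s (G - H) := by
  rw [sub_eq_add_neg, neg_eq_neg_one_mul]
  exact h.add (Bd.reg_mul ((Reg s).neg_mem (Reg s).one_mem) h')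

theorem Bd.sum {S : ℂ[X] → Prop} {s : ℂ} {κ : Type} (K : Finset κ) (G : κ → RatFunc ℂ)
    (h : ∀ k ∈ K, Bd S s (G k)) : Bd S s (∑ k ∈ K, G k) := by
  classical
  induction K using Finset.induction_on with
  | empty =>
    rw [Finset.sum_empty]
    exact Bd.of_reg (Reg s).zero_mem
  | insert k K hk ih =>
    rw [Finset.sum_insert hk]
    exact (h k (Finset.mem_insert_self k K)).add
      (ih fun k' hk' => h k' (Finset.mem_insert_of_mem hk'))

/-- the exponents are poles, and roots of the same multiplicity -/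
def Fr {σ : Type} (f : MvPolynomial σ ℂ) (v : ℂ × ℕ →₀ ℂ) : Prop :=
  ∀ p ∈ v.support, (-p.1).re < 0 ∧ FM (fun _ : Fin 1 => f) (-p.1) ((p.2 + 1) + dl (-p.1))

theorem lap2_Bd {σ τ : Type} {f : MvPolynomial σ ℂ} {g : MvPolynomial τ ℂ} {v w : ℂ × ℕ →₀ ℂ}
    (hv : Fr f v) (hw : Fr g w) (s : ℂ) : Bd (SS f g) s (lap2 v w) := by
  obtain ⟨n, h1, h2⟩ := lap2_order v w s
  refine ⟨n, h1, fun b' hb => ?_⟩
  rcases h2 with rfl | ⟨p, hp, q, hq, rfl, rfl⟩
  · rw [pow_zero]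
    exact one_dvd _
  · have h3 := hb (-p.1) (-q.1) (p.2 + 1) (q.2 + 1) (by omega) (by omega) (hv p hp).2 (hw q hq).2
    exact (pow_dvd_pow _ (by omega)).trans h3

theorem lap2_reg {σ τ : Type} {f : MvPolynomial σ ℂ} {g : MvPolynomial τ ℂ} {v w : ℂ × ℕ →₀ ℂ}
    (hv : Fr f v) (hw : Fr g w) (s : ℂ) (hs : 0 ≤ s.re) : lap2 v w ∈ Reg s := by
  obtain ⟨n, h1, h2⟩ := lap2_order v w s
  rcases h2 with rfl | ⟨p, hp, q, hq, rfl, -⟩
  · unfold Pool.Agent.K1H20.TQ.PO at h1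
    rwa [pow_zero, one_mul] at h1
  · have h3 := (hv p hp).1
    have h4 := (hw q hq).1
    rw [Complex.add_re] at hs
    linarith

theorem Fr_r {σ : Type} {f : MvPolynomial σ ℂ} {Z₀ : RatFunc ℂ} {Z : ℕ → RatFunc ℂ}
    (h : Sh σ f Z₀ Z) {r : ℂ × ℕ →₀ ℂ} {u : ℕ → (ℂ × ℕ →₀ ℂ)} {c : ℂ} {D : Finset ℕ}
    (hr : Lapl Z₀ Z r u c D) : Fr f r := by
  intro p hp
  refine ⟨?_, FM_exp1 (hyp σ f) Z₀ h.cq r c hr.zero hr.ne p hp⟩
  refine h.cq.neg _ (pole_of_ref Z₀ _ ?_)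
  have h5 := pole_of_exp ((RatFunc.X + 1) * Z₀ - RatFunc.X * RatFunc.C c) r
    (by linear_combination hr.zero) hr.ne p hp
  by_contra h6
  exact Reg_denom _ _ ((Reg _).sub_mem (mem_Reg_of_denom _ _ h6)
    ((Reg _).mul_mem (X_reg _) (C_reg _ c))) h5

theorem Fr_u {σ : Type} {f : MvPolynomial σ ℂ} {Z₀ : RatFunc ℂ} {Z : ℕ → RatFunc ℂ}
    (h : Sh σ f Z₀ Z) {r : ℂ × ℕ →₀ ℂ} {u : ℕ → (ℂ × ℕ →₀ ℂ)} {c : ℂ} {D : Finset ℕ}
    (hr : Lapl Z₀ Z r u c D) (e : ℕ) (he : 2 ≤ e) : Fr f (u e) := by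
  intro q hq
  have hu := hr.tw e he
  constructor
  · refine (h.cw e he).neg _ ?_
    by_contra h5
    have h6 := mem_Reg_of_denom _ _ h5
    rw [hu] at h6
    exact lap_pole (u e) q hq h6
  · obtain ⟨m, h10, h11⟩ := (h.cw e he).main (-q.1)
    rw [hu] at h10
    have := lap_order (u e) q hq m h10
    exact h11.mono (by omega)

/-- **Sums.** -/
theorem sh_sum {σ τ : Type} {f : MvPolynomial σ ℂ} {g : MvPolynomial τ ℂ} (w : τ → ℚ)
    (hw : MvPolynomial.IsWeightedHomogeneous w g 1) {Z₀ W₀ : RatFunc ℂ} {Z W : ℕ → RatFunc ℂ}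
    {r r' : ℂ × ℕ →₀ ℂ} {u u' : ℕ → (ℂ × ℕ →₀ ℂ)} {c c' : ℂ} {D D' : Finset ℕ} (x : ℤ)
    (hr : Lapl Z₀ Z r u c D) (hr' : Lapl W₀ W r' u' c' D') (hf : Sh σ f Z₀ Z)
    (hg : Sh τ g W₀ W) :
    Sh (σ ⊕ τ) (MvPolynomial.rename Sum.inl f + MvPolynomial.rename Sum.inr g)
      ((1 - RatFunc.X * (lap2 r r' + mix 1 D D' u u' - RatFunc.C (x : ℂ))) * (RatFunc.X + 1)⁻¹)
      (fun e => lap2 (u e) r' + lap2 r (u' e) - mix e D D' u u') := by
  classical
  have hf0 := hf.ne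
  have hg0 := hg.ne
  have hfin := hf.cq.fin
  have hfin' := hg.cq.fin
  set F : MvPolynomial (σ ⊕ τ) ℂ := MvPolynomial.rename Sum.inl f + MvPolynomial.rename Sum.inr g
    with hF
  have hFne : F ≠ 0 := (two_ne w f g hw hg0).1
  have fr := Fr_r hf hr
  have fr' := Fr_r hg hr'
  have fu := Fr_u hf hr
  have fu' := Fr_u hg hr'
  have bmix : ∀ e s, Bd (SS f g) s (mix e D D' u u') := fun e s =>
    Bd.sum _ _ fun d₁ h₁ => Bd.sum _ _ fun d₂ h₂ => Bd.reg_mul (C_reg s _)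
      (lap2_Bd (fu d₁ (hr.two d₁ h₁)) (fu' d₂ (hr'.two d₂ h₂)) s)
  have rmix : ∀ e s, 0 ≤ s.re → mix e D D' u u' ∈ Reg s := fun e s hs =>
    Subring.sum_mem _ fun d₁ h₁ => Subring.sum_mem _ fun d₂ h₂ => (Reg s).mul_mem (C_reg s _)
      (lap2_reg (fu d₁ (hr.two d₁ h₁)) (fu' d₂ (hr'.two d₂ h₂)) s hs)
  have hm1 : FM (fun _ : Fin 1 => F) (-1) 1 := by
    intro b hb
    obtain ⟨b', rfl, -⟩ := fm_two f g hf0 hg0 w hw b hb
    rw [pow_one, X_add_one]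
    exact dvd_mul_right _ _
  have hdl : ∀ (s : ℂ) (n : ℕ), (∀ b' : ℂ[X], SS f g b' → (X - C s) ^ n ∣ b') →
      FM (fun _ : Fin 1 => F) s (n + dl s) := by
    intro s n h b hb
    obtain ⟨b', rfl, h7⟩ := fm_two f g hf0 hg0 w hw b hb
    have h8 := h b' h7
    rw [dl_eq]
    split_ifs with h9
    · rw [pow_succ']
      refine mul_dvd_mul ?_ h8
      rw [X_add_one, h9]
    · rw [add_zero]
      exact h8.mul_left _
  refine ⟨⟨inferInstanceAs (Finite (σ ⊕ τ)), ⟨0, hFne⟩, ?_, fun s => ?_⟩, hm1, fun e he =>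
    ⟨?_, fun s => ?_⟩⟩
  · refine neg_of_reg fun s hs => ?_
    refine (Reg s).mul_mem ((Reg s).sub_mem (Reg s).one_mem ((Reg s).mul_mem (X_reg s)
      ((Reg s).sub_mem ((Reg s).add_mem (lap2_reg fr fr' s hs) (rmix 1 s hs)) (C_reg s _))))
      (X1_inv_reg s hs)
  · obtain ⟨n, h1, h2⟩ := ((lap2_Bd fr fr' s).add (bmix 1 s)).sub
      (Bd.of_reg (C_reg s ((x : ℤ) : ℂ)))
    exact ⟨n + dl s, ((PO.of_reg (Reg s).one_mem n).sub (PO.reg_mul (X_reg s) h1)).mul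
      (inv_X1_PO s), hdl s n h2⟩
  · refine neg_of_reg fun s hs => ?_
    exact (Reg s).sub_mem ((Reg s).add_mem (lap2_reg (fu e he) fr' s hs)
      (lap2_reg fr (fu' e he) s hs)) (rmix e s hs)
  · obtain ⟨n, h1, h2⟩ := ((lap2_Bd (fu e he) fr' s).add (lap2_Bd fr (fu' e he) s)).sub
      (bmix e s)
    exact ⟨n, h1, hdl s n h2⟩

theorem Cq_equiv (A B : Fam) (i : A.σ ≃ B.σ) (k : A.ι ≃ B.ι)
    (h : ∀ j, B.f (k j) = MvPolynomial.rename i (A.f j)) (Z : RatFunc ℂ) (hA : Cq A Z) :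
    Cq B Z := by
  have hf := hA.fin
  refine ⟨Finite.of_equiv A.σ i, ?_, hA.neg, fun s => ?_⟩
  · obtain ⟨j, hj⟩ := hA.ne
    refine ⟨k j, ?_⟩
    rw [h, Ne, map_eq_zero_iff _ (MvPolynomial.rename_injective _ i.injective)]
    exact hj
  · obtain ⟨n, h4, h5⟩ := hA.main s
    exact ⟨n, h4, fm_equiv A B i k h _ _ h5⟩

theorem Cw_equiv (A B : Fam) (i : A.σ ≃ B.σ) (k : A.ι ≃ B.ι)
    (h : ∀ j, B.f (k j) = MvPolynomial.rename i (A.f j)) (Z : RatFunc ℂ) (hA : Cw A Z) :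
    Cw B Z := by
  refine ⟨hA.neg, fun s => ?_⟩
  obtain ⟨n, h4, h5⟩ := hA.main s
  exact ⟨n, h4, fm_equiv A B i k h _ _ h5⟩

/-- **Products.** -/
theorem sh_mul {σ τ : Type} {f : MvPolynomial σ ℂ} {g : MvPolynomial τ ℂ} {Z₀ W₀ : RatFunc ℂ}
    {Z W : ℕ → RatFunc ℂ} (x y : ℤ) (hf : Sh σ f Z₀ Z) (hg : Sh τ g W₀ W) :
    Sh (σ ⊕ τ) (MvPolynomial.rename Sum.inl f * MvPolynomial.rename Sum.inr g) (Z₀ * W₀)
      (fun e => Z e * W e + ((x : RatFunc ℂ) * W e + (y : RatFunc ℂ) * Z e)) := by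
  classical
  set A := hyp σ f with hA
  set B := hyp τ g with hB
  have h1 := hf.cq
  have h1' := hg.cq
  have hfA := h1.fin
  have hfB := h1'.fin
  have hq : Cq (A.mul B) (Z₀ * W₀) := by
    refine ⟨inferInstanceAs (Finite (A.σ ⊕ B.σ)), ?_, fun s hs => ?_, fun s => ?_⟩
    · obtain ⟨j, hj⟩ := h1.ne
      obtain ⟨k, hk⟩ := h1'.ne
      refine ⟨(j, k), ?_⟩
      change (MvPolynomial.rename Sum.inl (A.f j) * MvPolynomial.rename Sum.inr (B.f k) :
        MvPolynomial (A.σ ⊕ B.σ) ℂ) ≠ 0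
      refine mul_ne_zero ?_ ?_
      · rw [Ne, map_eq_zero_iff _ (MvPolynomial.rename_injective _ Sum.inl_injective)]
        exact hj
      · rw [Ne, map_eq_zero_iff _ (MvPolynomial.rename_injective _ Sum.inr_injective)]
        exact hk
    · by_contra hre
      push Not at hre
      exact Reg_denom s _ ((Reg s).mul_mem (reg_of_neg h1.neg s hre)
        (reg_of_neg h1'.neg s hre)) hs
    · by_cases hre : 0 ≤ s.re
      · refine ⟨0, PO_zero ((Reg s).mul_mem (reg_of_neg h1.neg s hre)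
          (reg_of_neg h1'.neg s hre)), fun b hb => ?_⟩
        rw [pow_zero]
        exact one_dvd _
      · obtain ⟨m, h4, h5⟩ := h1.main s
        obtain ⟨n, h6, h7⟩ := h1'.main s
        refine ⟨m + n, h4.mul h6, FM_mul A.f B.f h1.ne h1'.ne s (fun N hN => hre ?_) m n h5 h7⟩
        rw [← hN, Complex.natCast_re]
        exact Nat.cast_nonneg N
  have hw : ∀ e, 2 ≤ e → Cw (A.mul B)
      (Z e * W e + ((x : RatFunc ℂ) * W e + (y : RatFunc ℂ) * Z e)) := by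
    intro e he
    refine ⟨fun s hs => ?_, fun s => ?_⟩
    · by_contra hre
      push Not at hre
      have hZ := reg_of_neg (hf.cw e he).neg s hre
      have hW := reg_of_neg (hg.cw e he).neg s hre
      exact Reg_denom s _ ((Reg s).add_mem ((Reg s).mul_mem hZ hW) ((Reg s).add_mem
        ((Reg s).mul_mem (int_reg s x) hW) ((Reg s).mul_mem (int_reg s y) hZ))) hs
    · by_cases hre : 0 ≤ s.re
      · have hZ := reg_of_neg (hf.cw e he).neg s hre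
        have hW := reg_of_neg (hg.cw e he).neg s hre
        refine ⟨0, PO_zero ((Reg s).add_mem ((Reg s).mul_mem hZ hW) ((Reg s).add_mem
          ((Reg s).mul_mem (int_reg s x) hW) ((Reg s).mul_mem (int_reg s y) hZ))), fun b hb => ?_⟩
        rw [dl_eq, if_neg, add_zero, pow_zero]
        · exact one_dvd _
        · rintro rfl
          norm_num at hre
      · obtain ⟨m, h4, h5⟩ := (hf.cw e he).main s
        obtain ⟨n, h6, h7⟩ := (hg.cw e he).main s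
        have h8 : FM (A.mul B).f s ((m + dl s) + (n + dl s)) :=
          FM_mul A.f B.f h1.ne h1'.ne s (fun N hN => hre (by
            rw [← hN, Complex.natCast_re]
            exact Nat.cast_nonneg N)) _ _ h5 h7
        refine ⟨m + n, (h4.mul h6).add (((PO.reg_mul (int_reg s x) h6).mono (by omega)).add
          ((PO.reg_mul (int_reg s y) h4).mono (by omega))), h8.mono (by omega)⟩
  set C' := hyp (σ ⊕ τ) (MvPolynomial.rename Sum.inl f * MvPolynomial.rename Sum.inr g) with hC'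
  set k1 : (A.mul B).ι ≃ C'.ι := (Equiv.prodUnique (Fin 1) (Fin 1)) with hk1
  have hk : ∀ j : (A.mul B).ι, C'.f (k1 j) =
      MvPolynomial.rename (Equiv.refl (σ ⊕ τ)) ((A.mul B).f j) := by
    intro j
    exact (MvPolynomial.rename_id_apply (MvPolynomial.rename Sum.inl f *
      MvPolynomial.rename Sum.inr g : MvPolynomial (σ ⊕ τ) ℂ)).symm
  exact ⟨Cq_equiv (A.mul B) C' (Equiv.refl _) k1 hk _ hq,
    fm_equiv (A.mul B) C' (Equiv.refl _) k1 hk _ _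
      (fm_mulL A B _ _ h1'.ne hf.m1), fun e he =>
    Cw_equiv (A.mul B) C' (Equiv.refl _) k1 hk _ (hw e he)⟩

/-! ### Powers -/

theorem scl_alg (m : ℕ) (hm : m ≠ 0) (p : ℂ[X]) : scl m hm (algebraMap ℂ[X] (RatFunc ℂ) p) =
    algebraMap ℂ[X] (RatFunc ℂ) (p.comp (C (m : ℂ) * X)) := by
  have h := RatFunc.map_apply_div (compRingHom (C (m : ℂ) * X))
    (nonZeroDivisors_le_comap_nonZeroDivisors_of_injective
    _ (fun p q h => by
      have h1 := congrArg (fun r : ℂ[X] => r.comp (C (1 / (m : ℂ)) * X)) h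
      have hm' : (m : ℂ) ≠ 0 := Nat.cast_ne_zero.2 hm
      simp only [coe_compRingHom_apply, comp_assoc, mul_comp, X_comp, C_comp] at h1
      rwa [← mul_assoc, ← C_mul, mul_one_div_cancel hm', C_1, one_mul, comp_X, comp_X] at h1)) p 1
  have h1 : (algebraMap ℂ[X] (RatFunc ℂ)) 1 = 1 := map_one _
  rw [h1, div_one, map_one (compRingHom (C (m : ℂ) * X)), h1, div_one] at h
  exact h

theorem scl_reg (m : ℕ) (hm : m ≠ 0) (s : ℂ) (Z : RatFunc ℂ) (h : Z ∈ Reg ((m : ℂ) * s)) :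
    scl m hm Z ∈ Reg s := by
  obtain ⟨p, q, hq, rfl⟩ := h
  refine ⟨p.comp (C (m : ℂ) * X), q.comp (C (m : ℂ) * X), ?_, ?_⟩
  · rw [eval_comp, eval_mul, eval_X, eval_C]
    exact hq
  · rw [map_div₀, scl_alg, scl_alg]

theorem scl_PO (m : ℕ) (hm : m ≠ 0) (s : ℂ) (n : ℕ) (Z : RatFunc ℂ)
    (h : PO ((m : ℂ) * s) n Z) : PO s n (scl m hm Z) := by
  unfold Pool.Agent.K1H20.TQ.PO at *
  have h1 := scl_reg m hm s _ h
  rw [base_eq, map_mul, map_pow, scl_alg, sub_comp, X_comp, C_comp] at h1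
  have hm' : (m : ℂ) ≠ 0 := Nat.cast_ne_zero.2 hm
  have e : (C (m : ℂ) * X - C ((m : ℂ) * s) : ℂ[X]) = C (m : ℂ) * (X - C s) := by
    rw [C_mul]
    ring
  rw [e, map_mul, mul_pow] at h1
  have h2 := (Reg s).mul_mem (C_reg s ((1 / (m : ℂ)) ^ n)) h1
  have e2 : RatFunc.C ((1 / (m : ℂ)) ^ n) * (algebraMap ℂ[X] (RatFunc ℂ) (C (m : ℂ)) ^ n *
      algebraMap ℂ[X] (RatFunc ℂ) (X - C s) ^ n * scl m hm Z) =
      (RatFunc.X + RatFunc.C (-s)) ^ n * scl m hm Z := by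
    rw [base_eq, RatFunc.algebraMap_C, ← map_pow (RatFunc.C : ℂ →+* RatFunc ℂ)]
    rw [← mul_assoc, ← mul_assoc, ← map_mul, ← mul_pow, one_div_mul_cancel hm', one_pow, map_one,
      one_mul]
  rwa [e2] at h2

theorem fm_power {σ : Type} (f : MvPolynomial σ ℂ) (hf : f ≠ 0) (hu : ¬ f ∣ 1) (m : ℕ)
    (hm : 2 ≤ m) (s : ℂ) (n : ℕ) (h : FM (fun _ : Fin 1 => f) ((m : ℂ) * s) n) :
    FM (fun _ : Fin 1 => f ^ m) s (n + dl s) := by
  classical
  have hm' : (m : ℂ) ≠ 0 := Nat.cast_ne_zero.2 (by omega)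
  intro b hb
  obtain ⟨b', rfl, h1⟩ := pow_fe f hf hu m hm b (isB_of_single _ b hb)
  obtain ⟨q, hq⟩ := h _ (single_of_isB _ _ h1)
  have h2 : (X - C s) ^ n ∣ b' := by
    have h3 := congrArg (fun p : ℂ[X] => p.comp (C (m : ℂ) * X)) hq
    simp only [mul_comp, pow_comp, sub_comp, X_comp, C_comp, comp_assoc] at h3
    rw [← mul_assoc, ← C_mul, one_div_mul_cancel hm', C_1, one_mul, comp_X] at h3
    have e : (C (m : ℂ) * X - C ((m : ℂ) * s) : ℂ[X]) = C (m : ℂ) * (X - C s) := by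
      rw [C_mul]
      ring
    rw [h3, e, mul_pow]
    exact ⟨C (m : ℂ) ^ n * q.comp (C (m : ℂ) * X), by ring⟩
  rw [dl_eq]
  split_ifs with h9
  · rw [pow_succ']
    refine mul_dvd_mul ?_ h2
    rw [X_add_one, h9]
  · rw [add_zero]
    exact h2.mul_left _

theorem sh_pow {σ : Type} {f : MvPolynomial σ ℂ} {Z₀ : RatFunc ℂ} {Z : ℕ → RatFunc ℂ} (m : ℕ)
    (hm : 2 ≤ m) (hm' : m ≠ 0) (x : ℤ) (hf : Sh σ f Z₀ Z) :
    Sh σ (f ^ m) (scl m hm' Z₀) (fun e => if e ∣ m then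
        scl m hm' Z₀ - (x : RatFunc ℂ) else scl m hm' (Z (e / e.gcd m))) := by
  classical
  have hf0 := hf.ne
  have hu := nonunit f hf.m1
  have hmC : (0 : ℝ) < m := by exact_mod_cast (by omega : 0 < m)
  have hre : ∀ s : ℂ, 0 ≤ s.re → 0 ≤ ((m : ℂ) * s).re := fun s hs => by
    rw [Complex.mul_re, Complex.natCast_re, Complex.natCast_im, zero_mul, sub_zero]
    positivity
  have key : ∀ (s : ℂ), ∃ n, PO s n (scl m hm' Z₀) ∧
      FM (fun _ : Fin 1 => f ^ m) s (n + dl s) := by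
    intro s
    obtain ⟨n, h1, h2⟩ := hf.cq.main ((m : ℂ) * s)
    exact ⟨n, scl_PO m hm' s n Z₀ h1, fm_power f hf0 hu m hm s n h2⟩
  have hreg0 : ∀ s : ℂ, 0 ≤ s.re → scl m hm' Z₀ ∈ Reg s := fun s hs =>
    scl_reg m hm' s _ (reg_of_neg hf.cq.neg _ (hre s hs))
  refine ⟨⟨hf.cq.fin, ⟨(0 : Fin 1), pow_ne_zero m hf0⟩, neg_of_reg hreg0, fun s => ?_⟩, ?_,
    fun e he => ?_⟩
  · obtain ⟨n, h1, h2⟩ := key s
    exact ⟨n, h1, h2.mono (by omega)⟩
  · obtain ⟨n, h1, h2⟩ := key (-1)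
    rw [dl_eq, if_pos rfl] at h2
    exact h2.mono (by omega)
  · by_cases hd : e ∣ m
    · rw [if_pos hd]
      refine ⟨neg_of_reg fun s hs => (Reg s).sub_mem (hreg0 s hs) (int_reg s x), fun s => ?_⟩
      obtain ⟨n, h1, h2⟩ := key s
      exact ⟨n, h1.sub (PO.of_reg (int_reg s x) n), h2⟩
    · rw [if_neg hd]
      have he' : 2 ≤ e / e.gcd m := by
        have h1 : e.gcd m ∣ e := Nat.gcd_dvd_left e m
        obtain ⟨k, hk⟩ := h1
        have h2 : 0 < e.gcd m := Nat.gcd_pos_of_pos_left m (by omega)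
        have h3 : e / e.gcd m = k := Nat.div_eq_of_eq_mul_right h2 hk
        rw [h3]
        by_contra h4
        have h5 : k = 0 ∨ k = 1 := by omega
        rcases h5 with rfl | rfl
        · rw [mul_zero] at hk
          omega
        · rw [mul_one] at hk
          apply hd
          rw [hk]
          exact Nat.gcd_dvd_right e m
      refine ⟨neg_of_reg fun s hs => scl_reg m hm' s _
        (reg_of_neg (hf.cw _ he').neg _ (hre s hs)), fun s => ?_⟩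
      obtain ⟨n, h1, h2⟩ := (hf.cw _ he').main ((m : ℂ) * s)
      exact ⟨n, scl_PO m hm' s n _ h1,
        (fm_power f hf0 hu m hm s _ h2).mono (by omega)⟩

/-! ### The other operations -/

theorem sh_of_fe {σ τ : Type} {f : MvPolynomial σ ℂ} {g : MvPolynomial τ ℂ} {Z₀ : RatFunc ℂ}
    {Z : ℕ → RatFunc ℂ} (hfin : Finite τ) (hg : g ≠ 0)
    (h : ∀ b, IsFunctionalEq (fun _ : Fin 1 => g) b → IsFunctionalEq (fun _ : Fin 1 => f) b)
    (hf : Sh σ f Z₀ Z) : Sh τ g Z₀ Z := by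
  have hm : ∀ s n, FM (fun _ : Fin 1 => f) s n → FM (fun _ : Fin 1 => g) s n :=
    fun s n h1 b hb => h1 b (h b hb)
  refine ⟨⟨hfin, ⟨(0 : Fin 1), hg⟩, hf.cq.neg, fun s => ?_⟩, hm _ _ hf.m1, fun e he =>
    ⟨(hf.cw e he).neg, fun s => ?_⟩⟩
  · obtain ⟨n, h1, h2⟩ := hf.cq.main s
    exact ⟨n, h1, hm _ _ h2⟩
  · obtain ⟨n, h1, h2⟩ := (hf.cw e he).main s
    exact ⟨n, h1, hm _ _ h2⟩

theorem fe_smul {σ : Type} (f : MvPolynomial σ ℂ) (c : ℂ) (hc : c ≠ 0) (b : ℂ[X])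
    (hb : IsFunctionalEq (fun _ : Fin 1 => MvPolynomial.C c * f) b) :
    IsFunctionalEq (fun _ : Fin 1 => f) b := by
  classical
  refine single_of_isB _ _ ?_
  obtain ⟨P, hP⟩ := isB_of_single _ b hb
  refine isB_of_sum P.support f b (fun m => X ^ m) (fun m => c • P m) fun t => ?_
  have h1 := hP t
  have hpow : ∀ k : ℕ, (MvPolynomial.C c * f) ^ k = (c ^ k) • f ^ k := fun k => by
    rw [mul_pow, ← map_pow, MvPolynomial.C_mul']
  rw [hpow, hpow, mul_smul_comm] at h1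
  have h2 : (c ^ t) ≠ 0 := pow_ne_zero t hc
  apply smul_right_injective _ h2
  beta_reduce
  rw [h1, Finsupp.sum, Finset.smul_sum]
  refine Finset.sum_congr rfl fun m _ => ?_
  rw [map_smul, eval_pow, eval_X]
  change _ = (c ^ t) • (((t : ℂ) ^ m) • (c • (P m : Module.End ℂ (MvPolynomial σ ℂ)) _))
  rw [smul_smul, smul_smul, smul_smul]
  congr 1
  ring

/-- **The closure theorem.** -/
theorem clo_sh (At : (σ : Type) → MvPolynomial σ ℂ → RatFunc ℂ → (ℕ → RatFunc ℂ) → Prop)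
    (hAt : ∀ σ f Z₀ Z, At σ f Z₀ Z → Sh σ f Z₀ Z) (σ : Type) (f : MvPolynomial σ ℂ)
    (Z₀ : RatFunc ℂ) (Z : ℕ → RatFunc ℂ) (h : Clo At σ f Z₀ Z) : Sh σ f Z₀ Z := by
  classical
  induction h with
  | atom σ f Z₀ Z h => exact hAt σ f Z₀ Z h
  | sum σ τ f g w hw Z₀ W₀ Z W r r' u u' c c' D D' x hr hr' hf hg ihf ihg =>
    exact sh_sum w hw x hr hr' ihf ihg
  | mul σ τ f g Z₀ W₀ Z W x y hf hg ihf ihg => exact sh_mul x y ihf ihg
  | pow σ f m hm Z₀ Z x hf ih => exact sh_pow m hm _ x ih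
  | smul σ f c hc Z₀ Z hf ih =>
    refine sh_of_fe ih.cq.fin (mul_ne_zero ?_ ih.ne) (fe_smul f c hc) ih
    rw [Ne, MvPolynomial.C_eq_zero]
    exact hc
  | aut σ φ f Z₀ Z hf ih =>
    have hfin : Finite σ := ih.cq.fin
    have := Fintype.ofFinite σ
    refine sh_of_fe ih.cq.fin ?_ (fe_aut φ f) ih
    intro h0
    exact ih.ne ((map_eq_zero_iff φ φ.injective).1 h0)
  | drop σ κ f Z₀ Z hf ih =>
    have hfin : Finite (σ ⊕ κ) := ih.cq.fin
    refine sh_of_fe (Finite.of_injective (Sum.inl : σ → σ ⊕ κ) Sum.inl_injective) ?_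
      (fun b hb => single_of_isB _ b (isB_rename (κ := κ) f b (isB_of_single _ b hb))) ih
    intro h0
    apply ih.ne
    rw [h0, map_zero]
  | equiv σ τ i f Z₀ Z hf ih =>
    have hfin : Finite σ := ih.cq.fin
    refine sh_of_fe (Finite.of_equiv σ i) ?_ (fun b hb =>
      functionalEq_equiv i (Equiv.refl (Fin 1)) _ _ (fun j => rfl) b hb) ih
    intro h0
    exact ih.ne ((map_eq_zero_iff _ (MvPolynomial.rename_injective _ i.injective)).1 h0)

end Pool.Agent.K1H20.SU
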