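import Pool.Agent.K1H20.TQ.Twist

set_option autoImplicit false

/-! # Topological zeta functions of sums `f(x) + g(z)`, products `f(x) g(z)` and powers `f ^ m`

Let `f(x)` be a polynomial, let `Z₀` be its topological zeta function with the stratum `{f ≠ 0}`, and
let `Z^(e)`, `e ≥ 2`, be the twisted ones. For a prime power `q` and a character `χ` of `𝔽_q^*` let
`N_f(n, χ)` be the sum of `χ(a)` times the volume of the arcs with `ord f = n` and angular component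
`ac f = a`, computed on an embedded resolution. For the stratum of `E_I` (`m_I = gcd (N_i)`,
`i ∈ I`) one finds `N_f(n, χ) ~ (q - 1) ∑_I χ(E_I°) [ord χ ∣ m_I] m_I [m_I ∣ n] w_I(t)` for `q → 1`,
`t = n (q - 1)`, `∫ w_I(t) exp(- s t) dt = ∏_{i ∈ I} 1 / (N_i s + ν_i)`, that is
`N_f(n, χ) ~ (q - 1) ∑_θ exp(2 π i n θ) U_lcm(ord χ, ord θ)(t)`, where `θ` runs through `ℚ / ℤ`,
`∫ U_e(t) exp(- s t) dt = Z^(e)(s)`, and `U_1 = - V'`, where `V(t)` is the volume of `ord f ≥ n`. Here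
`1 - (s + 1) Z₀(s) = s (∫ R(t) exp(- s t) dt - c)` with `R = V + V'`, `c = χ({f ≠ 0})`.

Let `F = f(x) + g(z)`, where `g` is weighted homogeneous, so that `F` is smooth at the zeros of `F` with
`g ≠ 0`. The arcs with `ord f = ord g = n`, `ac f + ac g ≠ 0` contribute
`(q - 1)^(-1) ∑_χ J(χ^-1, χ ε^-1) N_f(n, χ) N_g(n, ε χ^-1)` to `N_F(n, ε)`, and the Jacobi sum
`J = ∑_{a + b = 1, a b ≠ 0} …` tends to `χ({a + b = 1, a b ≠ 0}) = -1`; the arcs with `ord f ≠ ord g`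
contribute `N_f(n, ε) V_g + V_f N_g(n, ε)`, and the others contribute to `ε = 1` only. Hence
`U_e^F = U_e R_g + R_f U_e' - ∑_(χ, θ) U_{lcm(ord χ, ord θ)} U'_{lcm(ord(ε - χ), ord θ)}`, the sum over
the pairs where both indices are `≥ 2`, and similarly
`R_F = R_f R_g + ∑_(χ, θ) U_{lcm(ord χ, ord θ)} U'_{lcm(ord χ, ord θ)}`. For instance, for `x ^ a + z ^ b`
this gives `Z^(e) = ([e ∣ a] b + [e ∣ b] a - [e ∣ lcm(a, b)] gcd(a, b) ^ 2) / (a b s + a + b)`, as the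
weighted blowing up does. -/

namespace Pool.Agent.K1H20.SU

open Polynomial Pool.Agent.W574.SM Pool.Agent.W574.RO Pool.Agent.Y229 Pool.Agent.Y230.TH

/-- The number of pairs `(χ, θ)` in `(ℚ / ℤ) ^ 2` with `lcm (ord χ, ord θ) = d₁` and
`lcm (ord (ε - χ), ord θ) = d₂`, where `ε` has the order `e`. (All these pairs lie in the subgroup
`ℤ / M` of order `M = e d₁ d₂`, in which `ε = d₁ d₂`.) -/
noncomputable def cnt (e d₁ d₂ : ℕ) : ℕ :=
  Nat.card {p : ZMod (e * d₁ * d₂) × ZMod (e * d₁ * d₂) //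
    Nat.lcm (addOrderOf p.1) (addOrderOf p.2) = d₁ ∧
      Nat.lcm (addOrderOf (((d₁ * d₂ : ℕ) : ZMod (e * d₁ * d₂)) - p.1)) (addOrderOf p.2) = d₂}

/-- The Laplace transform of `∑_{d₁ ∈ D, d₂ ∈ D'} cnt e d₁ d₂ U_{d₁}(t) U'_{d₂}(t)`. -/
noncomputable def mix (e : ℕ) (D D' : Finset ℕ) (u u' : ℕ → (ℂ × ℕ →₀ ℂ)) : RatFunc ℂ :=
  ∑ d₁ ∈ D, ∑ d₂ ∈ D', RatFunc.C (cnt e d₁ d₂ : ℂ) * lap2 (u d₁) (u' d₂)

/-- The zeta functions are written as Laplace transforms: `1 - (s + 1) Z₀ = s (∫ R(t) exp(- s t) dt - c)`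
and `Z^(e) = ∫ U_e(t) exp(- s t) dt`, with the exponential polynomials `R`, `U_e` given by `r`, `u e`
(no constant function occurs in `R`); `Z^(e) = 0` for `e ≥ 2`, unless `e` is in the finite set `D`. -/
structure Lapl (Z₀ : RatFunc ℂ) (Z : ℕ → RatFunc ℂ) (r : ℂ × ℕ →₀ ℂ) (u : ℕ → (ℂ × ℕ →₀ ℂ))
    (c : ℂ) (D : Finset ℕ) : Prop where
  zero : 1 - (RatFunc.X + 1) * Z₀ = RatFunc.X * (lap r - RatFunc.C c)
  ne : ∀ p ∈ r.support, p.1 ≠ 0
  tw : ∀ e, 2 ≤ e → Z e = lap (u e)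
  two : ∀ d ∈ D, 2 ≤ d
  fin : ∀ e, 2 ≤ e → e ∉ D → Z e = 0

/-- The substitution `Z(s) ↦ Z(m s)`, `m ≥ 1`. -/
noncomputable def scl (m : ℕ) (hm : m ≠ 0) : RatFunc ℂ →+* RatFunc ℂ :=
  RatFunc.mapRingHom (compRingHom (C (m : ℂ) * X))
    (nonZeroDivisors_le_comap_nonZeroDivisors_of_injective _ (fun p q h => by
      have h1 := congrArg (fun r : ℂ[X] => r.comp (C (1 / (m : ℂ)) * X)) h
      have hm' : (m : ℂ) ≠ 0 := Nat.cast_ne_zero.2 hm
      simp only [coe_compRingHom_apply, comp_assoc, mul_comp, X_comp, C_comp] at h1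
      rwa [← mul_assoc, ← C_mul, mul_one_div_cancel hm', C_1, one_mul, comp_X, comp_X] at h1))

/-- `Clo At σ f Z₀ Z`: `f` is a polynomial in the finitely many variables `σ`, `Z₀` is its topological
zeta function (with the stratum `f ≠ 0`), and the `Z e`, `e ≥ 2`, are the twisted ones. This is the least
class which contains the given class `At` and is closed under the following operations. -/
inductive Clo (At : (σ : Type) → MvPolynomial σ ℂ → RatFunc ℂ → (ℕ → RatFunc ℂ) → Prop) :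
    (σ : Type) → MvPolynomial σ ℂ → RatFunc ℂ → (ℕ → RatFunc ℂ) → Prop
  /-- the polynomials started from -/
  | atom (σ : Type) (f : MvPolynomial σ ℂ) (Z₀ : RatFunc ℂ) (Z : ℕ → RatFunc ℂ)
      (h : At σ f Z₀ Z) : Clo At σ f Z₀ Z
  /-- the sum `f(x) + g(z)` in disjoint sets of variables, where `g` is weighted homogeneous of
  weight `1` for some rational weights of the variables `z`; `x` is the Euler characteristic of the set
  `f(x) + g(z) ≠ 0` -/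
  | sum (σ τ : Type) (f : MvPolynomial σ ℂ) (g : MvPolynomial τ ℂ) (w : τ → ℚ)
      (hw : MvPolynomial.IsWeightedHomogeneous w g 1) (Z₀ W₀ : RatFunc ℂ) (Z W : ℕ → RatFunc ℂ)
      (r r' : ℂ × ℕ →₀ ℂ) (u u' : ℕ → (ℂ × ℕ →₀ ℂ)) (c c' : ℂ) (D D' : Finset ℕ) (x : ℤ)
      (hr : Lapl Z₀ Z r u c D) (hr' : Lapl W₀ W r' u' c' D')
      (hf : Clo At σ f Z₀ Z) (hg : Clo At τ g W₀ W) :
      Clo At (σ ⊕ τ) (MvPolynomial.rename Sum.inl f + MvPolynomial.rename Sum.inr g)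
        ((1 - RatFunc.X * (lap2 r r' + mix 1 D D' u u' - RatFunc.C (x : ℂ))) * (RatFunc.X + 1)⁻¹)
        (fun e => lap2 (u e) r' + lap2 r (u' e) - mix e D D' u u')
  /-- the product `f(x) g(z)` in disjoint sets of variables; `x` and `y` are the Euler characteristics
  of the sets `f ≠ 0` and `g ≠ 0` -/
  | mul (σ τ : Type) (f : MvPolynomial σ ℂ) (g : MvPolynomial τ ℂ) (Z₀ W₀ : RatFunc ℂ)
      (Z W : ℕ → RatFunc ℂ) (x y : ℤ) (hf : Clo At σ f Z₀ Z) (hg : Clo At τ g W₀ W) :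
      Clo At (σ ⊕ τ) (MvPolynomial.rename Sum.inl f * MvPolynomial.rename Sum.inr g) (Z₀ * W₀)
        (fun e => Z e * W e + ((x : RatFunc ℂ) * W e + (y : RatFunc ℂ) * Z e))
  /-- the powers `f ^ m`; `x` is the Euler characteristic of the set `f ≠ 0` -/
  | pow (σ : Type) (f : MvPolynomial σ ℂ) (m : ℕ) (hm : 2 ≤ m) (Z₀ : RatFunc ℂ) (Z : ℕ → RatFunc ℂ)
      (x : ℤ) (hf : Clo At σ f Z₀ Z) :
      Clo At σ (f ^ m) (scl m (by omega) Z₀) (fun e => if e ∣ m then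
        scl m (by omega) Z₀ - (x : RatFunc ℂ) else scl m (by omega) (Z (e / e.gcd m)))
  /-- the multiples `c f`, `c ≠ 0` -/
  | smul (σ : Type) (f : MvPolynomial σ ℂ) (c : ℂ) (hc : c ≠ 0) (Z₀ : RatFunc ℂ)
      (Z : ℕ → RatFunc ℂ) (hf : Clo At σ f Z₀ Z) : Clo At σ (MvPolynomial.C c * f) Z₀ Z
  /-- the image of `f` under an automorphism of the polynomial ring -/
  | aut (σ : Type) (φ : MvPolynomial σ ℂ ≃ₐ[ℂ] MvPolynomial σ ℂ) (f : MvPolynomial σ ℂ)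
      (Z₀ : RatFunc ℂ) (Z : ℕ → RatFunc ℂ) (hf : Clo At σ f Z₀ Z) : Clo At σ (φ f) Z₀ Z
  /-- variables which do not occur may be dropped -/
  | drop (σ κ : Type) (f : MvPolynomial σ ℂ) (Z₀ : RatFunc ℂ) (Z : ℕ → RatFunc ℂ)
      (hf : Clo At (σ ⊕ κ) (MvPolynomial.rename Sum.inl f) Z₀ Z) : Clo At σ f Z₀ Z
  /-- the variables may be renamed -/
  | equiv (σ τ : Type) (i : σ ≃ τ) (f : MvPolynomial σ ℂ) (Z₀ : RatFunc ℂ) (Z : ℕ → RatFunc ℂ)
      (hf : Clo At σ f Z₀ Z) : Clo At τ (MvPolynomial.rename i f) Z₀ Z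

end Pool.Agent.K1H20.SU
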